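import Pool.Agent.H91.V0T.Ent

/-!
# The rows of several targets

`t_rwr : RwrStmt`. The exact positions of the slope-one places are inserted, then the heights of the
targets one by one, each followed by its exact position.
-/

set_option autoImplicit false

namespace Pool.V0T

open Finset Real MvPolynomial
open Pool.Agent.H49.Ent Pool.Agent.H32.Dense Pool.STK Pool.KA Pool.KSAT Pool.K2S Pool.PB Pool.GEN
open Pool.S6C Pool.RCD Pool.LA91 Pool.AVG96 Pool.OWN68 Pool.V0F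
open Pool.UNJ (ceI)
open Pool.V0R (t_nu0r t_nupr)
open Pool.V0Q (dgs mn4)

variable {m : ℕ} {S : PCl m} {c : ℕ → Fin m} {k f : ℕ} {sn : ℕ → ℝ → ℝ} {G : Set ℝ} {b o φ : ℝ}
  {w x x' : ℝ} {pr P : ℕ → ℝ} {Cr : ℝ}

theorem cr_num {k f : ℕ} {φ Cr : ℝ} (hφ : 0 < φ) (hCr : 100 * ((k : ℝ) + f + 2) ^ 2 ≤ Cr) :
    100 * (k * φ) + 100 * (f * φ) + 200 * φ ≤ Cr * φ ∧ 20 * (k : ℝ) ^ 2 * φ ≤ Cr * φ := by
  have hk0 : (0 : ℝ) ≤ k := Nat.cast_nonneg k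
  have hf0 : (0 : ℝ) ≤ f := Nat.cast_nonneg f
  constructor
  · have : 100 * (k * φ) + 100 * (f * φ) + 200 * φ = 100 * ((k : ℝ) + f + 2) * φ := by ring
    rw [this]
    refine mul_le_mul_of_nonneg_right (le_trans ?_ hCr) hφ.le
    nlinarith
  · refine mul_le_mul_of_nonneg_right (le_trans ?_ hCr) hφ.le
    have : 0 ≤ (k : ℝ) * f := mul_nonneg hk0 hf0
    nlinarith

/-- **The heights of the targets** are few bits given a later record. -/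
theorem nu_all (L : LadT S c k f sn G b o φ) (hCr : 100 * ((k : ℝ) + f + 2) ^ 2 ≤ Cr)
    (hw : w ∈ G) (hx : x ∈ G) (hx' : x' ∈ G) (hbw : b ≤ w) (hwx : w ≤ x) (hxx : x + Cr * φ ≤ x')
    (hxo : x' ≤ o) (hx1 : x' + Cr * φ ≤ 1) (hpr : ∀ u ≤ f, sn (k + u) w - φ ≤ pr u)
    (hPx : ∀ u ≤ f, P u + Cr * φ ≤ sn (k + u) x)
    (hPw : ∀ u ≤ f, P u + Cr * φ ≤ sn (k + u) w + (x' - w)) {ρ : ℝ} (hρ : 0 < ρ) :
    ∃ κ : ℝ, 0 < κ ∧ ∃ e : ℝ, 0 < e ∧ ∀ K : ℕ, Bas S (fun J F A => ∀ i < f + 1,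
      ∀ (V : Type) (z : F.Ω → V), Mx (fun J F => ptr F J) (vg x') κ F A z → ∀ v,
      (qJet m ((range (k + i)).image c) (c (k + i)) 0 w (pr i) (P i)).P K e J F A v →
      CH (Pool.Agent.H49.Ent.cond F.p A True) v (fun ω => (z ω, F.W ω)) ≤ ρ * J) := by
  have hφ := L.φ0
  obtain ⟨hC, -⟩ := cr_num hφ hCr
  have hk0 : 0 ≤ (k : ℝ) * φ := by positivity
  have hf0 : 0 ≤ (f : ℝ) * φ := by positivity
  have hx'1 : x' ≤ 1 := (hxo.trans_lt L.o1).le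
  have hxo' : x ≤ o := by linarith
  have hf : ∀ (J : ℕ) (F : Fam m J), ∃ φ : PtT F → PtT F, ∀ ω, ptr F J ω = φ (ptr F J ω) :=
    fun J F => ⟨fun y => y, fun _ => rfl⟩
  refine uni (Φ := fun i κ e K J F A => ∀ (V : Type) (z : F.Ω → V),
      Mx (fun J F => ptr F J) (vg x') κ F A z → ∀ v,
      (qJet m ((range (k + i)).image c) (c (k + i)) 0 w (pr i) (P i)).P K e J F A v →
      CH (Pool.Agent.H49.Ent.cond F.p A True) v (fun ω => (z ω, F.W ω)) ≤ ρ * J) (f + 1)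
    (fun i hi => ?_) fun i _ κ κ' e e' K J F A hκ he H V z hz v hv =>
      H V z (Mx.le' hκ hz) v ((qJet m _ _ _ _ _ _).mono le_rfl he hv)
  have hif : i ≤ f := by omega
  have hir : (i : ℝ) * φ ≤ f * φ :=
    mul_le_mul_of_nonneg_right (by exact_mod_cast hif) hφ.le
  have hi0 : 0 ≤ (i : ℝ) * φ := by positivity
  have e1 : 60 * ((k : ℝ) + i + 1) * φ = 60 * (k * φ) + 60 * (i * φ) + 60 * φ := by ring
  obtain ⟨e, he, H⟩ := (t_nu0r (L.tk hif).toLadR hf (kn_W (c := c)) (w := w) (x := x) (x' := x')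
    (ox := x') (pr := pr i) (N := P i) hw hx hx' hbw hwx (by rw [e1]; linarith) hxo le_rfl hx'1
    (by rw [e1]; linarith) (hpr i hif) (fun v hv h1 h2 => by
      rw [e1]
      have a := (abs_le.1 (L.eqa (Nat.le_add_right k i) (by omega) v hv x hx (hbw.trans h1) h2
        hxo')).2
      linarith [hPx i hif]) (by rw [e1]; linarith [hPw i hif])).mx L.pos ρ hρ
  exact ⟨ρ / 2, half_pos hρ, e, he, H⟩

/-- **The heights of the targets** are few bits given the positions of the slope-one places and the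
record. -/
theorem nup_all (L : LadT S c k f sn G b o φ) (hCr : 100 * ((k : ℝ) + f + 2) ^ 2 ≤ Cr)
    (hw : w ∈ G) (hx : x ∈ G) (hbw : b ≤ w) (hwx : w ≤ x) (hxo : x ≤ o)
    (hx'1 : x' ≤ 1) (hpr : ∀ u ≤ f, sn (k + u) w - φ ≤ pr u)
    (hPx : ∀ u ≤ f, P u + Cr * φ ≤ sn (k + u) x)
    (hPw : ∀ u ≤ f, P u + Cr * φ ≤ sn (k + u) w + (x' - w)) {ns : ℕ → ℝ} (q1 : Nst k sn w φ ns)
    (q2 : ∀ i < k, sn i x + 20 * φ ≤ ns i)
    (q5 : ∀ i < k, (x' - w) - 28 * ((k : ℝ) + 1) * φ ≤ ns i - sn i w) {ρ : ℝ} (hρ : 0 < ρ) :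
    ∃ κ : ℝ, 0 < κ ∧ ∃ e : ℝ, 0 < e ∧ ∀ K : ℕ, Bas S (fun J F A => ∀ i < f + 1,
      ∀ (V : Type) (z : F.Ω → V), Mx (fun J F => ptr F J) (vg x) κ F A z → ∀ us v,
      (qJets m c 0 k 0 (fun _ _ => b) (fun l _ => sn l b) (fun l _ => ns l)).P K e J F A us →
      (qJet m ((range (k + i)).image c) (c (k + i)) 0 w (pr i) (P i)).P K e J F A v →
      CH (Pool.Agent.H49.Ent.cond F.p A True) v (fun ω => (us ω, (z ω, F.W ω))) ≤ ρ * J) := by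
  have hφ := L.φ0
  obtain ⟨hC, -⟩ := cr_num hφ hCr
  have hk0 : 0 ≤ (k : ℝ) * φ := by positivity
  have hf0 : 0 ≤ (f : ℝ) * φ := by positivity
  have hx1 : x ≤ 1 := (hxo.trans_lt L.o1).le
  have hf : ∀ (J : ℕ) (F : Fam m J), ∃ φ : PtT F → PtT F, ∀ ω, ptr F J ω = φ (ptr F J ω) :=
    fun J F => ⟨fun y => y, fun _ => rfl⟩
  refine uni (Φ := fun i κ e K J F A => ∀ (V : Type) (z : F.Ω → V),
      Mx (fun J F => ptr F J) (vg x) κ F A z → ∀ us v,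
      (qJets m c 0 k 0 (fun _ _ => b) (fun l _ => sn l b) (fun l _ => ns l)).P K e J F A us →
      (qJet m ((range (k + i)).image c) (c (k + i)) 0 w (pr i) (P i)).P K e J F A v →
      CH (Pool.Agent.H49.Ent.cond F.p A True) v (fun ω => (us ω, (z ω, F.W ω))) ≤ ρ * J) (f + 1)
    (fun i hi => ?_) fun i _ κ κ' e e' K J F A hκ he H V z hz us v hus hv =>
      H V z (Mx.le' hκ hz) us v ((qJets m c 0 k 0 _ _ _).mono le_rfl he hus)
        ((qJet m _ _ _ _ _ _).mono le_rfl he hv)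
  have hif : i ≤ f := by omega
  have hir : (i : ℝ) * φ ≤ f * φ :=
    mul_le_mul_of_nonneg_right (by exact_mod_cast hif) hφ.le
  have hi0 : 0 ≤ (i : ℝ) * φ := by positivity
  have e1 : 20 * ((i : ℝ) + 1) * φ = 20 * (i * φ) + 20 * φ := by ring
  have e2 : 28 * ((k : ℝ) + 1) * φ = 28 * (k * φ) + 28 * φ := by ring
  obtain ⟨e, he, H⟩ := (t_nupr (L.tk hif).toLadR hf (kn_W (c := c)) (w := w) (j := x) (oj := x)
    (pr := pr i) (N := P i) (p := fun i => sn i b) (n := ns) hw hx hbw hwx hxo le_rfl hx1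
    (fun _ _ => by linarith) (hpr i hif) q1 q2 (fun v hv h1 h2 => by
      rw [e1]
      have a := (abs_le.1 (L.eqa (Nat.le_add_right k i) (by omega) v hv x hx (hbw.trans h1) h2
        hxo)).2
      linarith [hPx i hif]) (by rw [e1]; linarith [hPw i hif]) (fun l hl => by
      rw [e1]
      have := q5 l hl
      rw [e2] at this
      linarith [hPw i hif])).mx L.pos ρ hρ
  exact ⟨ρ / 2, half_pos hρ, e, he, H⟩

/-- **Heights and digits of the positions** given the exact positions of the places before. -/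
theorem exj_all (L : LadT S c k f sn G b o φ) (hCr : 100 * ((k : ℝ) + f + 2) ^ 2 ≤ Cr)
    (hw : w ∈ G) (hpr : ∀ u ≤ f, sn (k + u) w - φ ≤ pr u) (hx'1 : x' ≤ 1)
    (hP0 : ∀ u ≤ f, 0 ≤ P u ∧ P u ≤ 1)
    (hPw : ∀ u ≤ f, P u + Cr * φ ≤ sn (k + u) w + (x' - w))
    (hPl : ∀ u ≤ f, ∀ l < k + u, P u + Cr * φ ≤ sn (k + u) w + (1 - sn l w)) {rk E : ℝ}
    (hrk : rk < 1) (hE : 0 ≤ E)
    (hatt : AttG S ((range (k + f)).image c) (c (k + f)) w (sn (k + f) w) rk E)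
    (hPE : P f + E ≤ 1) {ρ : ℝ} (hρ : 0 < ρ) :
    ∃ κ : ℝ, 0 < κ ∧ ∃ e : ℝ, 0 < e ∧ ∀ K : ℕ, Bas S (fun J F A => ∀ i < f + 1,
      ∀ (V : Type) (z : F.Ω → V), Mx (fun J F => ptr F J) (vg w) κ F A z → ∀ v,
      (qJet m ((range (k + i)).image c) (c (k + i)) 0 w (pr i) (P i)).P K e J F A v →
      CH (Pool.Agent.H49.Ent.cond F.p A True) v (fun ω => (F.X ⌊P i * J⌋₊ ω (c (k + i)),
        (ceI ((range (k + i)).image c) (fun _ => J) (F.x ω), (z ω, F.W ω)))) ≤ ρ * J ∧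
      CH (Pool.Agent.H49.Ent.cond F.p A True) (fun ω => F.X ⌊P i * J⌋₊ ω (c (k + i))) (fun ω =>
        (v ω, (ceI ((range (k + i)).image c) (fun _ => J) (F.x ω), (z ω, F.W ω)))) ≤
          ρ * J) := by
  have hφ := L.φ0
  obtain ⟨hC, -⟩ := cr_num hφ hCr
  have hk0 : 0 ≤ (k : ℝ) * φ := by positivity
  have hf0 : 0 ≤ (f : ℝ) * φ := by positivity
  refine uni (Φ := fun i κ e K J F A => ∀ (V : Type) (z : F.Ω → V),
      Mx (fun J F => ptr F J) (vg w) κ F A z → ∀ v,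
      (qJet m ((range (k + i)).image c) (c (k + i)) 0 w (pr i) (P i)).P K e J F A v →
      CH (Pool.Agent.H49.Ent.cond F.p A True) v (fun ω => (F.X ⌊P i * J⌋₊ ω (c (k + i)),
        (ceI ((range (k + i)).image c) (fun _ => J) (F.x ω), (z ω, F.W ω)))) ≤ ρ * J ∧
      CH (Pool.Agent.H49.Ent.cond F.p A True) (fun ω => F.X ⌊P i * J⌋₊ ω (c (k + i))) (fun ω =>
        (v ω, (ceI ((range (k + i)).image c) (fun _ => J) (F.x ω), (z ω, F.W ω)))) ≤ ρ * J)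
    (f + 1) (fun i hi => ?_) fun i _ κ κ' e e' K J F A hκ he H V z hz v hv =>
      H V z (Mx.le' hκ hz) v ((qJet m _ _ _ _ _ _).mono le_rfl he hv)
  have hif : i ≤ f := by omega
  have e1 : 20 * (((k + f : ℕ) : ℝ) + 1) * φ = 20 * (k * φ) + 20 * (f * φ) + 20 * φ := by
    push_cast
    ring
  have t0 : P i + 20 * (((k + f : ℕ) : ℝ) + 1) * φ ≤ sn (k + i) w + (1 - w) := by
    rw [e1]
    linarith [hPw i hif]
  have t1 : ∀ l < k + i, P i + 20 * (((k + f : ℕ) : ℝ) + 1) * φ ≤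
      sn (k + i) w + (1 - sn l w) := fun l hl => by
    rw [e1]
    linarith [hPl i hif l hl]
  rcases Nat.lt_or_ge i f with h1 | h1
  · exact exj_base (L.one hw) (i := k + i) (w := w) (pr := pr i) (N := P i) (by omega)
      (Set.mem_singleton w) (hpr i hif) (hP0 i hif).1 (hP0 i hif).2 t0 t1 ρ hρ
  · obtain rfl : i = f := by omega
    exact exj (L.one hw) (i := k + i) (w := w) (pr := pr i) (N := P i) le_rfl
      (Set.mem_singleton w) hrk hE hatt (hpr i hif) (hP0 i hif).1 hPE t0 t1 ρ hρ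

/-- **The rows of the targets.** -/
theorem rowt (L : LadT S c k f sn G b o φ) (hI : (range (k + f)).image c = univ.erase (c (k + f)))
    {p n P₁ P₂ : ℕ → ℝ} {h δ rk E : ℝ} (hCr : 100 * ((k : ℝ) + f + 2) ^ 2 ≤ Cr) (hw : w ∈ G)
    (hx : x ∈ G) (hx' : x' ∈ G) (hbw : b ≤ w) (hwx : w ≤ x) (hxx : x + Cr * φ ≤ x')
    (hxo : x' ≤ o) (hx1 : x' + Cr * φ ≤ 1) (hp : ∀ i < k, sn i b - φ ≤ p i)
    (hpr : ∀ u ≤ f, sn (k + u) w - φ ≤ pr u) (hn : ∀ i < k, sn i x' ≤ n i ∧ n i ≤ 1)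
    (tp : Tp k sn b φ n) (hP : ∀ u ≤ f, 0 ≤ P₁ u ∧ P₁ u ≤ P₂ u ∧ P₂ u ≤ 1 ∧
      P₂ u + Cr * φ ≤ sn (k + u) x ∧ P₂ u + Cr * φ ≤ sn (k + u) w + (x' - w))
    (hPn : ∀ u < f, sn (k + u) x ≤ P₂ u + 2 * Cr * φ)
    (hPl : ∀ u ≤ f, ∀ l < k + u, P₂ u + Cr * φ ≤ sn (k + u) w + (1 - sn l w)) (hrk : rk < 1)
    (hE : 0 ≤ E) (hatt : AttG S ((range (k + f)).image c) (c (k + f)) w (sn (k + f) w) rk E)
    (hPE : P₂ f + E ≤ 1)
    (hraw : RawN S (univ.erase (c (k + f))) (c (k + f)) (P₁ f) (P₂ f - P₁ f) h δ) {ε : ℝ}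
    (hε : 0 < ε) :
    ∃ κ : ℝ, 0 < κ ∧ ∃ e₀ : ℝ, 0 < e₀ ∧ ∀ K : ℕ, Bas S (fun J F A =>
      ∀ (V : Type) (z : F.Ω → V), Mx (fun J F => ptr F J) (vg w) κ F A z → ∀ u u₁ u₂,
      (qJets m c 0 k 0 (fun _ _ => b) (fun l _ => p l) (fun l _ => n l)).P K e₀ J F A u →
      (qTg m c k (f + 1) w pr P₁).P K e₀ J F A u₁ → (qTg m c k (f + 1) w pr P₂).P K e₀ J F A u₂ →
      CH (Pool.Agent.H49.Ent.cond F.p A True) u₂ (fun ω => (u₁ ω, (u ω, (z ω, F.W ω)))) ≤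
        (((1 - h) * (P₂ f - P₁ f) + ∑ u ∈ range f, (P₂ u - P₁ u)) * Real.log 2 + δ +
          8 * ((f : ℝ) + 1) * Cr * φ + ε) * J) := by
  have hφ := L.φ0
  obtain ⟨hC1, hC2⟩ := cr_num hφ hCr
  have hk0 : (0 : ℝ) ≤ k := Nat.cast_nonneg k
  have hf0 : (0 : ℝ) ≤ f := Nat.cast_nonneg f
  have hkφ : 0 ≤ (k : ℝ) * φ := by positivity
  have hfφ : 0 ≤ (f : ℝ) * φ := by positivity
  have hx'1 : x' ≤ 1 := (hxo.trans_lt L.o1).le
  have hxx' : x ≤ x' := by linarith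
  have hxo' : x ≤ o := hxx'.trans hxo
  have hx1' : x ≤ 1 := hxx'.trans hx'1
  have hwx' : w ≤ x' := hwx.trans hxx'
  have hbx : b ≤ x := hbw.trans hwx
  have hbx' : b ≤ x' := hbw.trans hwx'
  have hw1 : w ≤ 1 := hwx'.trans hx'1
  have hl2 : 0 < Real.log 2 := Real.log_pos one_lt_two
  have hl1 : Real.log 2 ≤ 1 := by
    have := Real.log_two_lt_d9
    linarith
  have hf : ∀ (J : ℕ) (F : Fam m J), ∃ φ : PtT F → PtT F, ∀ ω, ptr F J ω = φ (ptr F J ω) :=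
    fun J F => ⟨fun y => y, fun _ => rfl⟩
  have hy := kn_W (c := c)
  obtain ⟨ns, q1, q2, q3, q4, q5⟩ := dgs L.lad hw hx hx' hbw hwx (by
    have : 100 * ((k : ℝ) + 2) * φ = 100 * (k * φ) + 200 * φ := by ring
    rw [this]
    linarith) hxo hn tp
  obtain ⟨ρ, hρ⟩ : ∃ ρ : ℝ, ρ = ε / (16 * ((f : ℝ) + 1) ^ 2) := ⟨_, rfl⟩
  have hρ0 : 0 < ρ := by rw [hρ]; positivity
  have hps : ∀ i < k, sn i b - φ ≤ sn i b := fun i _ => by linarith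
  have g1 : ∀ u ≤ f, P₁ u + Cr * φ ≤ sn (k + u) x := fun u hu => by
    have := hP u hu
    linarith
  have g2 : ∀ u ≤ f, P₁ u + Cr * φ ≤ sn (k + u) w + (x' - w) := fun u hu => by
    have := hP u hu
    linarith
  have g3 : ∀ u ≤ f, P₂ u + Cr * φ ≤ sn (k + u) x := fun u hu => (hP u hu).2.2.2.1
  have g4 : ∀ u ≤ f, P₂ u + Cr * φ ≤ sn (k + u) w + (x' - w) := fun u hu => (hP u hu).2.2.2.2
  -- the slope-one places
  obtain ⟨k₁, hk₁, e₁, he₁, H₁⟩ := fux L.lad hx' hbx' hxo hp hn tp ρ hρ0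
  obtain ⟨g₀, hg₀, G₀⟩ := (lad_few_heights L.lad hf hy hx hbx hxo' (p := fun i => sn i b) hps
    (fun i hi => ⟨by linarith [q2 i hi], q3 i hi⟩) q4).mx L.pos ρ hρ0
  -- the heights given the record at `x'`
  obtain ⟨α₁, hα₁, a₁, ha₁, A₁⟩ := nu_all L hCr hw hx hx' hbw hwx hxx hxo hx1 hpr g1 g2 hρ0
  obtain ⟨α₂, hα₂, a₂, ha₂, A₂⟩ := nu_all L hCr hw hx hx' hbw hwx hxx hxo hx1 hpr g3 g4 hρ0
  -- the heights given the record at `x` and the positions of the slope-one places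
  obtain ⟨β₁, hβ₁, b₁, hb₁, B₁⟩ := nup_all L hCr hw hx hbw hwx hxo' hx'1 hpr g1 g2 q1 q2 q5 hρ0
  obtain ⟨β₂, hβ₂, b₂, hb₂, B₂⟩ := nup_all L hCr hw hx hbw hwx hxo' hx'1 hpr g3 g4 q1 q2 q5 hρ0
  -- heights and digits of the positions
  obtain ⟨γ₁, hγ₁, d₁, hd₁, D₁⟩ := exj_all L hCr hw hpr hx'1 (P := P₁)
    (fun u hu => ⟨(hP u hu).1, (hP u hu).2.1.trans (hP u hu).2.2.1⟩) g2
    (fun u hu l hl => by linarith [hPl u hu l hl, (hP u hu).2.1]) hrk hE hatt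
    (by linarith [(hP f le_rfl).2.1]) hρ0
  obtain ⟨γ₂, hγ₂, d₂, hd₂, D₂⟩ := exj_all L hCr hw hpr hx'1 (P := P₂)
    (fun u hu => ⟨(hP u hu).1.trans (hP u hu).2.1, (hP u hu).2.2.1⟩) g4 hPl hrk hE hatt hPE hρ0
  obtain ⟨u₁', rd, -, hch⟩ := L.ch.ch x hx
  -- the constants
  obtain ⟨es, hes, s0, s1, s2, -⟩ := mn4 hg₀ hb₁ hb₂ hb₁
  obtain ⟨Ks, Ms, HX⟩ := L.lad.exs L.bG (j := 0) (N := fun l _ => ns l) es hes
  obtain ⟨κ, hκ, hκρ, hκ1, hκ2, -⟩ := mn4 hρ0 hγ₁ hγ₂ hρ0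
  obtain ⟨ea, hea, l1, l2, l3, l4⟩ := mn4 ha₁ ha₂ hd₁ hd₂
  obtain ⟨e₀, he₀, n1, n2, n3, -⟩ := mn4 he₁ hea hes hes
  obtain ⟨J₁, hJ₁⟩ := exists_nat_ge (2 / ρ)
  refine ⟨κ, hκ, e₀, he₀, fun K => Bas.mono J₁
    ((((H₁ K).and (G₀ Ks)).and ((A₁ K).and (A₂ K))).and
    ((((B₁ (max K Ks)).and (B₂ (max K Ks))).and ((D₁ K).and (D₂ K))).and
    ((((hch.ful ρ hρ0).and (hraw 0 le_rfl (by linarith [(hP f le_rfl).2.1]))).and HX).and
      (pos_bas L.pos)))) ?_⟩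
  rintro J hJ F A ⟨⟨⟨H₁, G₀⟩, A₁, A₂⟩, ⟨⟨B₁, B₂⟩, D₁, D₂⟩, ⟨⟨hful, hraw⟩, us, hus, -⟩, hA⟩ V z hz
    u u₁ u₂ hu hu₁ hu₂
  have hJ0 : (0 : ℝ) ≤ J := Nat.cast_nonneg J
  have hJ1 : (J₁ : ℝ) ≤ J := by exact_mod_cast hJ
  have hJ2 : 2 ≤ ρ * J := by
    have := hJ₁.trans hJ1
    rw [div_le_iff₀ hρ0] at this
    linarith
  have hKl : K ≤ max K Ks := le_max_left _ _
  have hKr : Ks ≤ max K Ks := le_max_right _ _
  obtain ⟨V', z', hz', hfin⟩ := mx_fin (fun J F => ptr F J) (vg x') F hA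
  obtain ⟨Vx, zx, hzx, hfinx⟩ := mx_fin (fun J F => ptr F J) (vg x) F hA
  obtain ⟨Vb, zb, hzb, -⟩ := mx_fin (fun J F => ptr F J) (vg b) F hA
  -- the heights as sequences
  obtain ⟨v₁, hv₁⟩ : ∃ v₁ : ℕ → F.Ω → ℤ, v₁ = fun i ω =>
    if h : i < f + 1 then u₁ ω ⟨i, h⟩ else 0 := ⟨_, rfl⟩
  obtain ⟨v₂, hv₂⟩ : ∃ v₂ : ℕ → F.Ω → ℤ, v₂ = fun i ω =>
    if h : i < f + 1 then u₂ ω ⟨i, h⟩ else 0 := ⟨_, rfl⟩
  have hv₁' : ∀ (i : ℕ) (hi : i < f + 1), v₁ i = fun ω => u₁ ω ⟨i, hi⟩ := fun i hi => by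
    rw [hv₁]
    funext ω
    exact dif_pos hi
  have hv₂' : ∀ (i : ℕ) (hi : i < f + 1), v₂ i = fun ω => u₂ ω ⟨i, hi⟩ := fun i hi => by
    rw [hv₂]
    funext ω
    exact dif_pos hi
  have hpv₁ : pre v₁ (f + 1) = u₁ := by
    funext ω i
    exact congrFun (hv₁' i i.2) ω
  have hpv₂ : pre v₂ (f + 1) = u₂ := by
    funext ω i
    exact congrFun (hv₂' i i.2) ω
  have P₁' : ∀ i ≤ f, (qJet m ((range (k + i)).image c) (c (k + i)) 0 w (pr i) (P₁ i)).P K e₀ J F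
      A (v₁ i) := fun i hi => by
    rw [hv₁' i (by omega)]
    exact hu₁ ⟨i, by omega⟩
  have P₂' : ∀ i ≤ f, (qJet m ((range (k + i)).image c) (c (k + i)) 0 w (pr i) (P₂ i)).P K e₀ J F
      A (v₂ i) := fun i hi => by
    rw [hv₂' i (by omega)]
    exact hu₂ ⟨i, by omega⟩
  -- the inputs
  have i1 := H₁ V' z' (hz' k₁ hk₁.le) u ((qJets m c 0 k 0 _ _ _).mono le_rfl n1 hu)
  have i2 := i1.2.1 Vb zb (hzb k₁ hk₁.le)
  have i3 := i1.2.2 Vb zb (hzb k₁ hk₁.le)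
  have i1 := i1.1
  have i4 := G₀ Vb zb (hzb _ (half_pos hρ0).le) (fun ω => fun l : Fin k => F.X J ω (c l)) us
    (fun ω _ => rfl) ((qJets m c 0 k 0 _ _ _).mono le_rfl s0 hus)
  have j1 : ∀ i ≤ f, _ := fun i hi => A₁ i (by omega) V' z' (hz' _ hα₁.le) (v₁ i)
    ((qJet m _ _ _ _ _ _).mono le_rfl (n2.trans l1) (P₁' i hi))
  have j2 : ∀ i ≤ f, _ := fun i hi => A₂ i (by omega) V' z' (hz' _ hα₂.le) (v₂ i)
    ((qJet m _ _ _ _ _ _).mono le_rfl (n2.trans l2) (P₂' i hi))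
  have y1 : ∀ i ≤ f, _ := fun i hi => B₁ i (by omega) Vx zx (hzx _ hβ₁.le) us (v₁ i)
    ((qJets m c 0 k 0 _ _ _).mono hKr s1 hus)
    ((qJet m _ _ _ _ _ _).mono hKl (n3.trans s1) (P₁' i hi))
  have y2 : ∀ i ≤ f, _ := fun i hi => B₂ i (by omega) Vx zx (hzx _ hβ₂.le) us (v₂ i)
    ((qJets m c 0 k 0 _ _ _).mono hKr s2 hus)
    ((qJet m _ _ _ _ _ _).mono hKl (n3.trans s2) (P₂' i hi))
  have x1 : ∀ i ≤ f, _ := fun i hi => (D₁ i (by omega) V z (Mx.le' hκ1 hz) (v₁ i)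
    ((qJet m _ _ _ _ _ _).mono le_rfl (n2.trans l3) (P₁' i hi))).2
  have x2 : ∀ i ≤ f, _ := fun i hi => D₂ i (by omega) V z (Mx.le' hκ2 hz) (v₂ i)
    ((qJet m _ _ _ _ _ _).mono le_rfl (n2.trans l4) (P₂' i hi))
  obtain ⟨⟨χ₁, hχ₁⟩, χ₂, hχ₂⟩ := (hzx 0 le_rfl).1
  have w1 : ∀ i < f, _ := fun i hi => hful Vx χ₁ χ₂ (fun ω hω => (hχ₁ ω hω).symm.trans (hχ₂ ω hω))
    (k + i) (Nat.zero_le _) (by omega)
  obtain ⟨q', hq'⟩ : ∃ q' : F.Ω → ℝ, q' = Pool.Agent.H49.Ent.cond F.p A True := ⟨_, rfl⟩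
  have hq'l : IsLaw q' := by
    rw [hq']
    exact isLaw_cond F.isLaw hA
  have hq0 := hq'l.nonneg
  have hq'A : ∀ ω, 0 < q' ω → A ω := fun ω hω => by
    rw [hq'] at hω
    exact of_cond_pos hω
  have hzb' : CH q' zb z ≤ ρ * J := by
    rw [hq']
    refine (hz.2 _ _ ((hzb 0 le_rfl).1.mono ⟨fun x => x, fun _ _ => rfl⟩ ?_)).trans
      (mul_le_mul_of_nonneg_right hκρ hJ0)
    obtain ⟨ψ, hψ⟩ := vg_mono hbw hw1 J F
    exact ⟨ψ, fun ω _ => hψ ω⟩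
  have dz' : Det q' z' z := fun ω ω' hω hω' e => by
    refine hfin V z (hz.1.mono ⟨fun x => x, fun _ _ => rfl⟩ ?_) ω ω' (hq'A ω hω) (hq'A ω' hω') e
    obtain ⟨ψ, hψ⟩ := vg_mono hwx' hx'1 J F
    exact ⟨ψ, fun ω _ => hψ ω⟩
  have dzx : Det q' zx z := fun ω ω' hω hω' e => by
    refine hfinx V z (hz.1.mono ⟨fun x => x, fun _ _ => rfl⟩ ?_) ω ω' (hq'A ω hω) (hq'A ω' hω') e
    obtain ⟨ψ, hψ⟩ := vg_mono hwx hx1' J F
    exact ⟨ψ, fun ω _ => hψ ω⟩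
  have dzb : Det q' zx zb := fun ω ω' hω hω' e => by
    refine hfinx Vb zb ((hzb 0 le_rfl).1.mono ⟨fun x => x, fun _ _ => rfl⟩ ?_) ω ω' (hq'A ω hω)
      (hq'A ω' hω') e
    obtain ⟨ψ, hψ⟩ := vg_mono hbx hx1' J F
    exact ⟨ψ, fun ω _ => hψ ω⟩
  rw [← hq'] at i1 i2 i3 i4 hraw ⊢
  simp only [← hq'] at j1 j2 y1 y2 x1 x2 w1
  obtain ⟨X0, hX0⟩ : ∃ X0 : F.Ω → Fin k → ℤ, X0 = fun ω (l : Fin k) => F.X J ω (c l) := ⟨_, rfl⟩
  obtain ⟨X, hX⟩ : ∃ X : ℕ → F.Ω → ℤ, X = fun i ω => F.X J ω (c (k + i)) := ⟨_, rfl⟩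
  rw [← hX0] at i1 i2
  have i3 : CH q' u (fun ω => (X0 ω, (zb ω, F.W ω))) ≤ ρ * J := by
    rw [hX0]
    exact i3
  have i4 : CH q' us (fun ω => (X0 ω, (zb ω, F.W ω))) ≤ ρ * J := by
    rw [hX0]
    exact i4
  have hXl : ∀ ω ω' (i : ℕ), X0 ω = X0 ω' → pre X i ω = pre X i ω' → ∀ l < k + i,
      F.X J ω (c l) = F.X J ω' (c l) := by
    intro ω ω' i e e' l hl
    rcases Nat.lt_or_ge l k with h1 | h1
    · rw [hX0] at e
      exact congrFun e ⟨l, h1⟩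
    · have h2 := pre_at e' (show l - k < i by omega)
      rw [hX] at h2
      have h3 : k + (l - k) = l := by omega
      simp only [h3] at h2
      exact h2
  have hc0 : ∀ ω ω' (i : ℕ), X0 ω = X0 ω' → pre X i ω = pre X i ω' →
      ceI ((range (k + i)).image c) (fun _ => J) (F.x ω) =
      ceI ((range (k + i)).image c) (fun _ => J) (F.x ω') := fun ω ω' i e e' =>
    ceI_tup le_rfl (hXl ω ω' i e e')
  have key := rwt_ent (q := q') hq0 (n := f) (V₁ := v₁) (V₂ := v₂) (X := X)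
    (D₁ := fun i ω => F.X ⌊P₁ i * J⌋₊ ω (c (k + i)))
    (D₂ := fun i ω => F.X ⌊P₂ i * J⌋₊ ω (c (k + i))) (u := u) (us := us) (X0 := X0) (z := z)
    (z' := z') (zx := zx) (zb := zb) (W := F.W) (a := ρ * J)
    (dQ := fun i => if i = f then ((1 - h) * (P₂ f - P₁ f) * Real.log 2 + δ) * J else
      ((P₂ i - P₁ i) * J + 1) * Real.log 2)
    (dJ := fun i => ((1 - P₂ i) * J + 1) * Real.log 2)
    (fl := fun i => (1 - sn (k + i) x - ρ) * Real.log 2 * J) dz' dzx dzb hzb' i1 i2 i3 j1 j2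
    ?_ ?_ ?_ ?_ ?_ i4 y1 y2 ?_
  · rw [hpv₁, hpv₂] at key
    refine key.trans ?_
    have e1 : 20 * (k : ℝ) ^ 2 * φ * Real.log 2 ≤ Cr * φ := by
      have : 20 * (k : ℝ) ^ 2 * φ * Real.log 2 ≤ 20 * (k : ℝ) ^ 2 * φ * 1 :=
        mul_le_mul_of_nonneg_left hl1 (by positivity)
      linarith
    have e2 := mul_le_mul_of_nonneg_right e1 hJ0
    have hCφ : 0 ≤ Cr * φ := by linarith
    have hCJ : 0 ≤ Cr * φ * J := mul_nonneg hCφ hJ0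
    have hρJ : 0 ≤ ρ * J := by positivity
    have e3 : ∑ i ∈ range (f + 1), (if i = f then ((1 - h) * (P₂ f - P₁ f) * Real.log 2 + δ) * J
        else ((P₂ i - P₁ i) * J + 1) * Real.log 2) =
        (∑ i ∈ range f, (P₂ i - P₁ i)) * Real.log 2 * J + f * Real.log 2 +
          ((1 - h) * (P₂ f - P₁ f) * Real.log 2 + δ) * J := by
      rw [Finset.sum_range_succ, if_pos rfl]
      congr 1
      rw [Finset.sum_congr rfl (g := fun i => (P₂ i - P₁ i) * (Real.log 2 * J) + Real.log 2)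
        fun i hi => by
          rw [if_neg (Finset.mem_range.1 hi).ne]
          ring]
      rw [Finset.sum_add_distrib, Finset.sum_const, card_range, nsmul_eq_mul, ← Finset.sum_mul]
      ring
    have e4 : ∑ i ∈ range f, (((1 - P₂ i) * J + 1) * Real.log 2 -
        (1 - sn (k + i) x - ρ) * Real.log 2 * J) ≤ f * (2 * (Cr * φ * J) + ρ * J + Real.log 2) := by
      have h1 : ∀ i ∈ range f, ((1 - P₂ i) * J + 1) * Real.log 2 -
          (1 - sn (k + i) x - ρ) * Real.log 2 * J ≤ 2 * (Cr * φ * J) + ρ * J + Real.log 2 := by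
        intro i hi
        have h2 := hPn i (Finset.mem_range.1 hi)
        have h3 : (sn (k + i) x - P₂ i + ρ) * Real.log 2 ≤ 2 * Cr * φ + ρ := by
          have h4 : 0 ≤ 2 * Cr * φ + ρ := by linarith
          calc (sn (k + i) x - P₂ i + ρ) * Real.log 2 ≤ (2 * Cr * φ + ρ) * Real.log 2 :=
                mul_le_mul_of_nonneg_right (by linarith) hl2.le
            _ ≤ (2 * Cr * φ + ρ) * 1 := mul_le_mul_of_nonneg_left hl1 h4
            _ = _ := mul_one _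
        have h5 := mul_le_mul_of_nonneg_right h3 hJ0
        have h6 : ((1 - P₂ i) * J + 1) * Real.log 2 - (1 - sn (k + i) x - ρ) * Real.log 2 * J =
            (sn (k + i) x - P₂ i + ρ) * Real.log 2 * J + Real.log 2 := by ring
        rw [h6]
        linarith
      have h2 := Finset.sum_le_sum h1
      rw [Finset.sum_const, card_range, nsmul_eq_mul] at h2
      exact h2
    have e5 : ((∑ i ∈ range k, (1 - n i)) * Real.log 2 * J + ρ * J -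
        (((∑ i ∈ range k, (1 - n i)) - 20 * (k : ℝ) ^ 2 * φ) * Real.log 2 * J - ρ * J)) ≤
        Cr * φ * J + 2 * (ρ * J) := by
      linarith
    have e6 : (((1 - h) * (P₂ f - P₁ f) + ∑ u ∈ range f, (P₂ u - P₁ u)) * Real.log 2 + δ +
        8 * ((f : ℝ) + 1) * Cr * φ + ε) * J =
        (∑ i ∈ range f, (P₂ i - P₁ i)) * Real.log 2 * J +
          ((1 - h) * (P₂ f - P₁ f) * Real.log 2 + δ) * J +
          (8 * f * (Cr * φ * J) + 8 * (Cr * φ * J)) +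
          (16 * ((f : ℝ) ^ 2 * (ρ * J)) + 32 * (f * (ρ * J)) + 16 * (ρ * J)) := by
      have h1 : ε = 16 * ((f : ℝ) + 1) ^ 2 * ρ := by
        rw [hρ]
        field_simp
      rw [h1]
      ring
    rw [e3, e6]
    have e7 : f * Real.log 2 ≤ f * (ρ * J) / 2 := by
      have : (f : ℝ) * Real.log 2 ≤ f * (ρ * J / 2) :=
        mul_le_mul_of_nonneg_left (by linarith) hf0
      linarith
    have e8 : 0 ≤ f * (Cr * φ * J) := mul_nonneg hf0 hCJ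
    have e9 : 0 ≤ f * (ρ * J) := mul_nonneg hf0 hρJ
    have e10 : 0 ≤ (f : ℝ) ^ 2 * (ρ * J) := by positivity
    have e11 : f * (2 * (Cr * φ * J) + ρ * J + Real.log 2) =
        2 * (f * (Cr * φ * J)) + f * (ρ * J) + f * Real.log 2 := by ring
    have e12 : 9 * ((f : ℝ) + 1) ^ 2 * (ρ * J) =
        9 * ((f : ℝ) ^ 2 * (ρ * J)) + 18 * (f * (ρ * J)) + 9 * (ρ * J) := by ring
    rw [e11] at e4
    rw [e12]
    linarith
  · intro i hi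
    refine le_trans (CH_mono_cond hq0 fun ω ω' _ _ e => ?_) (x1 i hi)
    simp only [Prod.mk.injEq] at e ⊢
    exact ⟨e.1, hc0 ω ω' i e.2.2.1 e.2.1, e.2.2.2.1, e.2.2.2.2⟩
  · intro i hi
    rcases Nat.lt_or_ge i f with h1 | h1
    · rw [if_neg h1.ne]
      have hQf : ⌊P₁ i * J⌋₊ ≤ ⌊P₂ i * J⌋₊ :=
        Nat.floor_le_floor (mul_le_mul_of_nonneg_right (hP i hi).2.1 hJ0)
      refine (X_more hq'l hQf (c (k + i)) _).trans (mul_le_mul_of_nonneg_right ?_ hl2.le)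
      have h1 := Nat.floor_le (show 0 ≤ P₂ i * J from
        mul_nonneg ((hP i hi).1.trans (hP i hi).2.1) hJ0)
      have h2 := (Nat.lt_floor_add_one (P₁ i * J)).le
      linarith
    · obtain rfl : i = f := by omega
      rw [if_pos rfl]
      have e1 : P₁ i + (P₂ i - P₁ i) = P₂ i := by ring
      have e2 : P₂ i - P₁ i - 0 = P₂ i - P₁ i := by ring
      rw [e1, e2, add_zero] at hraw
      refine le_trans (CH_mono_cond hq0 fun ω ω' _ _ e => ?_) hraw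
      simp only [Prod.mk.injEq] at e ⊢
      rw [← hI]
      exact ⟨e.1, hc0 ω ω' i e.2.2.1 e.2.1, e.2.2.2⟩
  · intro i hi
    refine le_trans (CH_mono_cond hq0 fun ω ω' _ _ e => ?_) (x2 i hi).1
    simp only [Prod.mk.injEq] at e ⊢
    exact ⟨e.1, hc0 ω ω' i e.2.2.1 e.2.1, e.2.2.2.1, e.2.2.2.2⟩
  · intro i hi
    refine le_trans (CH_mono_cond hq0 fun ω ω' _ _ e => ?_) (x2 i hi.le).2
    simp only [Prod.mk.injEq] at e ⊢
    exact ⟨e.1, hc0 ω ω' i e.2.2.1 e.2.1, e.2.2.2.1, e.2.2.2.2⟩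
  · intro i hi
    have hQJ : ⌊P₂ i * J⌋₊ ≤ J := floor_le (hP i hi.le).2.2.1 J
    rw [hX]
    refine (X_more hq'l hQJ (c (k + i)) X0).trans (mul_le_mul_of_nonneg_right ?_ hl2.le)
    have h2 := (Nat.lt_floor_add_one (P₂ i * J)).le
    linarith
  · intro i hi
    refine (w1 i hi).trans ?_
    rw [hX]
    refine CH_mono_cond hq0 fun ω ω' hω hω' e => ?_
    simp only [Prod.mk.injEq] at e ⊢
    refine ⟨pre_of fun l hl => congrFun e.1 ⟨k + l, by omega⟩, ?_, ?_, e.2.2⟩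
    · rw [hX0]
      exact funext fun l => congrFun e.1 ⟨l, by omega⟩
    · rw [hχ₂ ω (hq'A ω hω), hχ₂ ω' (hq'A ω' hω')]
      exact e.2.1

/-- **(RWR)** -/
theorem t_rwr : RwrStmt := by
  intro k f
  have hk0 : (0 : ℝ) ≤ k := Nat.cast_nonneg k
  have hf0 : (0 : ℝ) ≤ f := Nat.cast_nonneg f
  refine ⟨100 * ((k : ℝ) + f + 2) ^ 2, by nlinarith, ?_⟩
  intro m S c sn G b o φ L hI w w₁ x x' η p n pr P₁ P₂ h δ E₁ hw hx hx' hbw hwx hxx hxo hx1 hp hpr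
    hn tp hP hPn hPl hatt hraw hw₁ hw₁1 hη π₀ hπ₀ ε hε
  obtain ⟨rk, hrk, hE, hatt, hPE⟩ := hatt
  obtain ⟨k₁, hk₁, e₀, he₀, H⟩ := rowt L hI le_rfl hw hx hx' hbw hwx hxx hxo hx1 hp hpr hn tp hP
    hPn hPl hrk hE hatt hPE hraw (half_pos hε)
  obtain ⟨κ, hκ, H'⟩ := hη.max L.pos (ε / 2) (half_pos hε)
  obtain ⟨J₁, hJ₁⟩ := exists_nat_ge (-Real.log π₀ / κ)
  refine ⟨ε / 2 / 2, by positivity, e₀, he₀, fun K => Bas.mono J₁
    (((Pool.GRW.bas_part (H K) (inv_pos.2 hπ₀)).and H').and (pos_bas L.pos)) ?_⟩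
  rintro J hJ F A ⟨⟨H, H'⟩, hA⟩ V z hz hc u u₁ u₂ hu hu₁ hu₂ B hB hPB
  have hJ0 : (0 : ℝ) ≤ J := Nat.cast_nonneg J
  have hJ1 : (J₁ : ℝ) ≤ J := by exact_mod_cast hJ
  have hPB' : Pe F.p A ≤ π₀⁻¹ * Pe F.p B := by
    rw [inv_mul_eq_div, le_div_iff₀ hπ₀, mul_comm]
    exact hPB
  have hB0 : 0 < Pe F.p B := lt_of_lt_of_le (mul_pos hπ₀ hA) hPB
  have hexp : Real.exp (-(κ * J)) * Pe F.p A ≤ Pe F.p B := by
    refine le_trans (mul_le_mul_of_nonneg_right ?_ hA.le) hPB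
    rw [← Real.exp_log hπ₀]
    refine Real.exp_le_exp.2 ?_
    have := hJ₁.trans hJ1
    rw [div_le_iff₀ hκ] at this
    linarith
  obtain ⟨-, -, hmax⟩ := H' V z hz hc B hB hexp
  obtain ⟨V', z', hz', -⟩ := mx_fin (fun J F => ptr F J) (vg w) F hB0
  have h1 := H B hB hPB' V' z' (hz' k₁ hk₁.le) u u₁ u₂ ((qJets m c 0 k 0 _ _ _).sub hB hu)
    ((qTg m c k (f + 1) w pr P₁).sub hB hu₁) ((qTg m c k (f + 1) w pr P₂).sub hB hu₂)
  have h2 := (hmax V' z' ((hz' 0 le_rfl).1.mono ⟨fun x => x, fun _ _ => rfl⟩ (by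
    obtain ⟨ψ, hψ⟩ := vg_mono hw₁ hw₁1 J F
    exact ⟨ψ, fun ω _ => hψ ω⟩))).2
  have hq0 := (isLaw_cond F.isLaw hB0).nonneg
  have h3 := CH_le_add hq0 u₂ z' (fun ω => (u₁ ω, (u ω, (z ω, F.W ω))))
  have h4 : CH (Pool.Agent.H49.Ent.cond F.p B True) z'
      (fun ω => (u₁ ω, (u ω, (z ω, F.W ω)))) ≤
      CH (Pool.Agent.H49.Ent.cond F.p B True) z' z := CH_mono_cond hq0 fun ω ω' _ _ e => by
    simp only [Prod.mk.injEq] at e
    exact e.2.2.1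
  have h5 : CH (Pool.Agent.H49.Ent.cond F.p B True) u₂
      (fun ω => (z' ω, (u₁ ω, (u ω, (z ω, F.W ω))))) ≤
      CH (Pool.Agent.H49.Ent.cond F.p B True) u₂
        (fun ω => (u₁ ω, (u ω, (z' ω, F.W ω)))) :=
    CH_mono_cond hq0 fun ω ω' _ _ e => by
      simp only [Prod.mk.injEq] at e ⊢
      exact ⟨e.2.1, e.2.2.1, e.1, e.2.2.2.2⟩
  nlinarith

end Pool.V0T
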