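import Pool.Agent.H48.V0T.Par2
import Pool.Agent.H91.V0T.Rwr

/-!
# Fullness of the digits of one of several targets

`fut_ent`: the entropies. `fut`: the digits of the target `k + t` are full given the digits of the
earlier targets (any number of digits), near digits of the other targets and closed functions.
`fulT`: the statement `FulTStmt`.
-/

set_option autoImplicit false

namespace Pool.V0T

open Finset Real MvPolynomial
open Pool.Agent.H49.Ent Pool.Agent.H32.Dense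
open Pool.STK hiding pr2
open Pool.KA Pool.KSAT Pool.K2S Pool.PB Pool.GEN
open Pool.S6C Pool.RCD Pool.LA91 Pool.AVG96 Pool.OWN68 Pool.V0F Pool.V0Q
open Pool.UNJ (ceI)
open Pool.V0R (t_nupr)

variable {m : ℕ} {S : PCl m} {c : ℕ → Fin m} {k f : ℕ} {sn : ℕ → ℝ → ℝ} {G : Set ℝ} {b o φ : ℝ}
  {w x : ℝ} {pr M : ℕ → ℝ} {Cr : ℝ}

/-- The entropies of the fullness. -/
theorem fut_ent {Ω : Type} [Fintype Ω] {q : Ω → ℝ} (h0 : ∀ ω, 0 ≤ q ω)
    {T₁ T₂ T₃ T₄ T₅ T₆ T₇ T₈ : Type} {f : ℕ} {v : ℕ → Ω → ℤ} {u : Ω → T₁} {z : Ω → T₂}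
    {z' : Ω → T₃} {W : Ω → T₄} {X : Ω → T₅} {x₁ : Ω → T₆} {x₂ : Ω → T₇} {u₂ : Ω → T₈}
    {a fl dJ : ℝ} (hd : Det q z' z) (hu : CH q u (fun ω => (X ω, (z' ω, W ω))) ≤ a)
    (hv : ∀ i < f + 1, CH q (v i) (fun ω => (u ω, (X ω, (z' ω, W ω)))) ≤ a)
    (hf : fl ≤ CH q x₁ (fun ω => (X ω, (z' ω, W ω))))
    (h2 : CH q x₂ (fun ω => (u₂ ω, (X ω, (z' ω, W ω)))) ≤ a)
    (h1 : CH q x₁ (fun ω => (x₂ ω, (u₂ ω, (X ω, (z' ω, W ω))))) ≤ dJ) :
    fl - dJ - ((f : ℝ) + 3) * a ≤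
      CH q u₂ (fun ω => (pre v (f + 1) ω, (u ω, (z ω, W ω)))) := by
  obtain ⟨Y, hY⟩ : ∃ Y : Ω → T₅ × (T₃ × T₄), Y = fun ω => (X ω, (z' ω, W ω)) := ⟨_, rfl⟩
  obtain ⟨m₁, hm₁⟩ : ∃ m₁ : Ω → Fin (f + 1) → ℤ, m₁ = pre v (f + 1) := ⟨_, rfl⟩
  rw [← hm₁]
  rw [← hY] at hu hf
  have hv' : ∀ i < f + 1, CH q (v i) (fun ω => (u ω, Y ω)) ≤ a := by
    intro i hi
    rw [hY]
    exact hv i hi
  have h2' : CH q x₂ (fun ω => (u₂ ω, Y ω)) ≤ a := by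
    rw [hY]
    exact h2
  have h1' : CH q x₁ (fun ω => (x₂ ω, (u₂ ω, Y ω))) ≤ dJ := by
    rw [hY]
    exact h1
  have r1 : CH q u₂ (fun ω => ((m₁ ω, u ω), Y ω)) ≤
      CH q u₂ (fun ω => (m₁ ω, (u ω, (z ω, W ω)))) :=
    CH_mono_cond h0 fun ω ω' hω hω' e => by
      rw [hY] at e
      simp only [Prod.mk.injEq] at e ⊢
      exact ⟨e.1.1, e.1.2, hd ω ω' hω hω' e.2.2.1, e.2.2.2⟩
  have r2 := Pool.OWN68.CH_exch h0 u₂ (fun ω => (m₁ ω, u ω)) Y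
  have r2' := CH_nonneg h0 (fun ω => (m₁ ω, u ω)) (fun ω => (u₂ ω, Y ω))
  have r3 := CH_chain h0 m₁ u Y
  have r4 : CH q m₁ (fun ω => (u ω, Y ω)) ≤ ((f + 1 : ℕ) : ℝ) * a := by
    rw [hm₁]
    exact CH_pre h0 hv'
  have s2 := CH_le_add h0 x₁ u₂ Y
  have s3 := CH_le_add h0 x₁ x₂ (fun ω => (u₂ ω, Y ω))
  push_cast at r4
  have e1 : ((f : ℝ) + 3) * a = (f + 1) * a + 2 * a := by ring
  rw [e1]
  linarith

/-- **The digits of one target are full** given the digits of the earlier targets, near digits of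
the others and functions closed at the window `x`. -/
theorem fut (L : LadT S c k f sn G b o φ) (hCr : 100 * ((k : ℝ) + f + 2) ^ 2 ≤ Cr) {t : ℕ}
    (ht : t < f) (hw : w ∈ G) (hx : x ∈ G) (hbw : b ≤ w) (hwx : w ≤ x) (hxo : x ≤ o)
    {x' : ℝ} {p n : ℕ → ℝ} {U : ℝ} (hp : ∀ i < k, sn i b - φ ≤ p i)
    (hpr : ∀ u ≤ f, sn (k + u) w - φ ≤ pr u) (hn : ∀ i < k, sn i x + 20 * φ ≤ n i ∧ n i ≤ 1)
    (tp : Tp k sn b φ n) (nst : Nst k sn w φ n) (hx'1 : x' ≤ 1)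
    (hnx : ∀ i < k, (x' - w) - 28 * ((k : ℝ) + 1) * φ ≤ n i - sn i w)
    (hM : ∀ u, t ≤ u → u ≤ f → M u + Cr * φ ≤ sn (k + u) x ∧
      M u + Cr * φ ≤ sn (k + u) w + (x' - w))
    (hM' : ∀ u < t, 0 ≤ M u ∧ M u ≤ 1 ∧ M u + Cr * φ ≤ sn (k + u) w + (1 - w) ∧
      ∀ l < k + u, M u + Cr * φ ≤ sn (k + u) w + (1 - sn l w))
    (hU : 0 ≤ U ∧ U ≤ 1 ∧ U + Cr * φ ≤ sn (k + t) w + (1 - w) ∧
      ∀ l < k + t, U + Cr * φ ≤ sn (k + t) w + (1 - sn l w))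
    {π₀ : ℝ} (hπ : 0 < π₀) {ε : ℝ} (hε : 0 < ε) :
    ∃ e₀ : ℝ, 0 < e₀ ∧ ∀ K : ℕ, Bas S (fun J F A => ∀ u (v : ℕ → F.Ω → ℤ) u₂,
      (qJets m c 0 k 0 (fun _ _ => b) (fun l _ => p l) (fun l _ => n l)).P K e₀ J F A u →
      (∀ i < f + 1, (qJet m ((range (k + i)).image c) (c (k + i)) 0 w (pr i) (M i)).P K e₀ J F A
        (v i)) →
      (qJet m ((range (k + t)).image c) (c (k + t)) 0 w (pr t) U).P K e₀ J F A u₂ →
      ∀ B : F.Ω → Prop, Sub B A → π₀ * Pe F.p A ≤ Pe F.p B →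
      ∀ (V : Type) (z : F.Ω → V), Cl2 (ptr F J) (vg x J F) B z →
      ((U - sn (k + t) x) * Real.log 2 - ε) * J ≤ CH (Pool.Agent.H49.Ent.cond F.p B True) u₂
        (fun ω => (pre v (f + 1) ω, (u ω, (z ω, F.W ω))))) := by
  have hφ := L.φ0
  obtain ⟨hC, -⟩ := cr_num hφ hCr
  have hk0 : 0 ≤ (k : ℝ) * φ := by positivity
  have hf0 : 0 ≤ (f : ℝ) * φ := by positivity
  have hbx : b ≤ x := hbw.trans hwx
  have hx1 : x ≤ 1 := (hxo.trans_lt L.o1).le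
  have hl2 : 0 < Real.log 2 := Real.log_pos one_lt_two
  have hl1 : Real.log 2 ≤ 1 := by
    have := Real.log_two_lt_d9
    linarith
  have hf : ∀ (J : ℕ) (F : Fam m J), ∃ φ : PtT F → PtT F, ∀ ω, ptr F J ω = φ (ptr F J ω) :=
    fun J F => ⟨fun y => y, fun _ => rfl⟩
  obtain ⟨ρ, hρ⟩ : ∃ ρ : ℝ, ρ = ε / (((f : ℝ) + 8)) := ⟨_, rfl⟩
  have hρ0 : 0 < ρ := by rw [hρ]; positivity
  have e20 : 20 * (((k + f : ℕ) : ℝ) + 1) * φ = 20 * (k * φ) + 20 * (f * φ) + 20 * φ := by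
    push_cast
    ring
  -- near digits of the targets from `t` on
  obtain ⟨κ₁, hκ₁, e₁, he₁, H₁⟩ : ∃ κ : ℝ, 0 < κ ∧ ∃ e : ℝ, 0 < e ∧ ∀ K : ℕ, Bas S
      (fun J F A => ∀ i < f + 1, ∀ (V : Type) (z : F.Ω → V),
      Mx (fun J F => ptr F J) (vg x) κ F A z → ∀ us v, t ≤ i →
      (qJets m c 0 k 0 (fun _ _ => b) (fun l _ => p l) (fun l _ => n l)).P K e J F A us →
      (qJet m ((range (k + i)).image c) (c (k + i)) 0 w (pr i) (M i)).P K e J F A v →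
      CH (Pool.Agent.H49.Ent.cond F.p A True) v (fun ω => (us ω, (z ω, F.W ω))) ≤ ρ * J) := by
    refine uni (Φ := fun i κ e K J F A => ∀ (V : Type) (z : F.Ω → V),
      Mx (fun J F => ptr F J) (vg x) κ F A z → ∀ us v, t ≤ i →
      (qJets m c 0 k 0 (fun _ _ => b) (fun l _ => p l) (fun l _ => n l)).P K e J F A us →
      (qJet m ((range (k + i)).image c) (c (k + i)) 0 w (pr i) (M i)).P K e J F A v →
      CH (Pool.Agent.H49.Ent.cond F.p A True) v (fun ω => (us ω, (z ω, F.W ω))) ≤ ρ * J) (f + 1)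
      (fun i hi => ?_) fun i _ κ κ' e e' K J F A hκ he H V z hz us v hti hus hv =>
        H V z (Mx.le' hκ hz) us v hti ((qJets m c 0 k 0 _ _ _).mono le_rfl he hus)
          ((qJet m _ _ _ _ _ _).mono le_rfl he hv)
    by_cases hti : t ≤ i
    swap
    · exact ⟨1, one_pos, 1, one_pos, fun K => Bas.mono 0 (pos_bas L.pos)
        fun J _ F A _ V z _ us v h => absurd h hti⟩
    have hif : i ≤ f := by omega
    have hir : (i : ℝ) * φ ≤ f * φ :=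
      mul_le_mul_of_nonneg_right (by exact_mod_cast hif) hφ.le
    have hi0 : 0 ≤ (i : ℝ) * φ := by positivity
    have e1 : 20 * ((i : ℝ) + 1) * φ = 20 * (i * φ) + 20 * φ := by ring
    have e2 : 28 * ((k : ℝ) + 1) * φ = 28 * (k * φ) + 28 * φ := by ring
    obtain ⟨m1, m2⟩ := hM i hti hif
    have e3 : x' - w ≤ 1 - w := by linarith
    obtain ⟨e, he, H⟩ := (t_nupr (L.tk hif).toLadR hf (kn_W (c := c)) (w := w) (j := x) (oj := x)
      (pr := pr i) (N := M i) (p := p) (n := n) hw hx hbw hwx hxo le_rfl hx1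
      hp (hpr i hif) nst (fun l hl => (hn l hl).1) (fun v hv h1 h2 => by
        rw [e1]
        have a := (abs_le.1 (L.eqa (Nat.le_add_right k i) (by omega) v hv x hx (hbw.trans h1) h2
          hxo)).2
        linarith) (by rw [e1]; linarith) (fun l hl => by
        rw [e1]
        have := hnx l hl
        rw [e2] at this
        linarith)).mx L.pos ρ hρ0
    exact ⟨ρ / 2, half_pos hρ0, e, he, fun K => Bas.mono 0 (H K)
      fun J _ F A h V z hz us v _ h1 h2 => h V z hz us v h1 h2⟩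
  -- heights and positions
  have hexj : ∀ i, i < f → ∀ N : ℝ, 0 ≤ N → N ≤ 1 → N + Cr * φ ≤ sn (k + i) w + (1 - w) →
      (∀ l < k + i, N + Cr * φ ≤ sn (k + i) w + (1 - sn l w)) → ∃ κ : ℝ, 0 < κ ∧ ∃ e : ℝ, 0 < e ∧
      ∀ K : ℕ, Bas S (fun J F A => ∀ (V : Type) (z : F.Ω → V),
      Mx (fun J F => ptr F J) (vg w) κ F A z → ∀ v,
      (qJet m ((range (k + i)).image c) (c (k + i)) 0 w (pr i) N).P K e J F A v →
      CH (Pool.Agent.H49.Ent.cond F.p A True) v (fun ω => (F.X ⌊N * J⌋₊ ω (c (k + i)),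
        (ceI ((range (k + i)).image c) (fun _ => J) (F.x ω), (z ω, F.W ω)))) ≤ ρ * J ∧
      CH (Pool.Agent.H49.Ent.cond F.p A True) (fun ω => F.X ⌊N * J⌋₊ ω (c (k + i))) (fun ω =>
        (v ω, (ceI ((range (k + i)).image c) (fun _ => J) (F.x ω), (z ω, F.W ω)))) ≤
          ρ * J) := by
    intro i hi N hN0 hN1 t0 t1
    exact exj_base (L.one hw) (i := k + i) (w := w) (pr := pr i) (N := N) (by omega)
      (Set.mem_singleton w) (hpr i hi.le) hN0 hN1 (by rw [e20]; linarith)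
      (fun l hl => by rw [e20]; linarith [t1 l hl]) ρ hρ0
  obtain ⟨κ₂, hκ₂, e₂, he₂, H₂⟩ : ∃ κ : ℝ, 0 < κ ∧ ∃ e : ℝ, 0 < e ∧ ∀ K : ℕ, Bas S
      (fun J F A => ∀ i < t, ∀ (V : Type) (z : F.Ω → V),
      Mx (fun J F => ptr F J) (vg w) κ F A z → ∀ v,
      (qJet m ((range (k + i)).image c) (c (k + i)) 0 w (pr i) (M i)).P K e J F A v →
      CH (Pool.Agent.H49.Ent.cond F.p A True) v (fun ω => (F.X ⌊M i * J⌋₊ ω (c (k + i)),
        (ceI ((range (k + i)).image c) (fun _ => J) (F.x ω), (z ω, F.W ω)))) ≤ ρ * J) := by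
    refine uni (Φ := fun i κ e K J F A => ∀ (V : Type) (z : F.Ω → V),
      Mx (fun J F => ptr F J) (vg w) κ F A z → ∀ v,
      (qJet m ((range (k + i)).image c) (c (k + i)) 0 w (pr i) (M i)).P K e J F A v →
      CH (Pool.Agent.H49.Ent.cond F.p A True) v (fun ω => (F.X ⌊M i * J⌋₊ ω (c (k + i)),
        (ceI ((range (k + i)).image c) (fun _ => J) (F.x ω), (z ω, F.W ω)))) ≤ ρ * J) t
      (fun i hi => ?_) fun i _ κ κ' e e' K J F A hκ he H V z hz v hv =>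
        H V z (Mx.le' hκ hz) v ((qJet m _ _ _ _ _ _).mono le_rfl he hv)
    obtain ⟨m1, m2, m3, m4⟩ := hM' i hi
    obtain ⟨κ, hκ, e, he, H⟩ := hexj i (by omega) (M i) m1 m2 m3 m4
    exact ⟨κ, hκ, e, he, fun K => Bas.mono 0 (H K) fun J _ F A h V z hz v hv => (h V z hz v hv).1⟩
  obtain ⟨κ₃, hκ₃, e₃, he₃, H₃⟩ := hexj t ht U hU.1 hU.2.1 hU.2.2.1 hU.2.2.2
  obtain ⟨κ₄, hκ₄, e₄, he₄, H₄⟩ := fux L.lad hx hbx hxo hp (fun i hi => ⟨by
    linarith [(hn i hi).1], (hn i hi).2⟩) tp ρ hρ0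
  obtain ⟨u₁', rd, -, hch⟩ := L.ch.ch x hx
  obtain ⟨e₀, he₀, l1, l2, l3, l4⟩ := mn4 he₁ he₂ he₃ he₄
  obtain ⟨J₁, hJ₁⟩ := exists_nat_ge (1 / ρ)
  refine ⟨e₀, he₀, fun K => Bas.mono J₁ ((Pool.GRW.bas_part ((((H₁ K).and (H₂ K)).and
    ((H₃ K).and (H₄ K))).and (hch.ful ρ hρ0)) (inv_pos.2 hπ)).and (pos_bas L.pos)) ?_⟩
  rintro J hJ F A ⟨H, hA⟩ u v u₂ hu hv hu₂ B hB hPB V z hz
  have hJ0 : (0 : ℝ) ≤ J := Nat.cast_nonneg J
  have hJ1 : (J₁ : ℝ) ≤ J := by exact_mod_cast hJ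
  have h1J : 1 ≤ ρ * J := by
    have := hJ₁.trans hJ1
    rw [div_le_iff₀ hρ0] at this
    linarith
  have hPB' : Pe F.p A ≤ π₀⁻¹ * Pe F.p B := by
    rw [inv_mul_eq_div, le_div_iff₀ hπ, mul_comm]
    exact hPB
  have hB0 : 0 < Pe F.p B := lt_of_lt_of_le (mul_pos hπ hA) hPB
  obtain ⟨⟨⟨H₁, H₂⟩, H₃, H₄⟩, H₅⟩ := H B hB hPB'
  obtain ⟨V', z', hz', hfin⟩ := mx_fin (fun J F => ptr F J) (vg x) F hB0
  obtain ⟨Vb, zb, hzb, -⟩ := mx_fin (fun J F => ptr F J) (vg b) F hB0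
  obtain ⟨Vw, zw, hzw, -⟩ := mx_fin (fun J F => ptr F J) (vg w) F hB0
  have hu' := (qJets m c 0 k 0 _ _ _).sub hB hu
  have hv' : ∀ i < f + 1, _ := fun i hi => (qJet m _ _ _ _ _ _).sub hB (hv i hi)
  have hu₂' := (qJet m _ _ _ _ _ _).sub hB hu₂
  have h1 : ∀ i < f + 1, t ≤ i → _ := fun i hi hti => H₁ i hi V' z' (hz' _ hκ₁.le) u (v i) hti
    ((qJets m c 0 k 0 _ _ _).mono le_rfl l1 hu') ((qJet m _ _ _ _ _ _).mono le_rfl l1 (hv' i hi))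
  have h2 : ∀ i < t, _ := fun i hi => H₂ i hi Vw zw (hzw _ hκ₂.le) (v i)
    ((qJet m _ _ _ _ _ _).mono le_rfl l2 (hv' i (by omega)))
  have h3 := (H₃ Vw zw (hzw _ hκ₃.le) u₂ ((qJet m _ _ _ _ _ _).mono le_rfl l3 hu₂')).2
  have h4 := (H₄ V' z' (hz' κ₄ hκ₄.le) u ((qJets m c 0 k 0 _ _ _).mono le_rfl l4 hu')).2.2 Vb zb
    (hzb κ₄ hκ₄.le)
  obtain ⟨⟨ψp, hψp⟩, ψ, hψ⟩ := (hz' 0 le_rfl).1
  have h5 := H₅ V' ψp (fun s => ψ s) (fun ω hω => by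
    rw [← hψp ω hω]
    exact hψ ω hω) (k + t) (Nat.zero_le _) (by omega)
  obtain ⟨q', hq'⟩ : ∃ q' : F.Ω → ℝ, q' = Pool.Agent.H49.Ent.cond F.p B True := ⟨_, rfl⟩
  have hq'l : IsLaw q' := by
    rw [hq']
    exact isLaw_cond F.isLaw hB0
  have h0 := hq'l.nonneg
  have hq'B : ∀ ω, 0 < q' ω → B ω := fun ω hω => by
    rw [hq'] at hω
    exact of_cond_pos hω
  have hzb' : ∀ ω ω', B ω → B ω' → z' ω = z' ω' → zb ω = zb ω' := by
    refine hfin Vb zb ((hzb 0 le_rfl).1.mono ⟨fun x => x, fun _ _ => rfl⟩ ?_)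
    obtain ⟨χ, hχ⟩ := vg_mono hbx hx1 J F
    exact ⟨χ, fun ω _ => hχ ω⟩
  have hzw' : ∀ ω ω', B ω → B ω' → z' ω = z' ω' → zw ω = zw ω' := by
    refine hfin Vw zw ((hzw 0 le_rfl).1.mono ⟨fun x => x, fun _ _ => rfl⟩ ?_)
    obtain ⟨χ, hχ⟩ := vg_mono hwx hx1 J F
    exact ⟨χ, fun ω _ => hχ ω⟩
  have hzz := hfin V z hz
  rw [← hq'] at h3 h4 h5 ⊢
  simp only [← hq'] at h1 h2
  obtain ⟨X, hXd⟩ : ∃ X : F.Ω → Fin (k + t) → ℤ, X = fun ω (l : Fin (k + t)) => F.X J ω (c l) :=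
    ⟨_, rfl⟩
  have hX : ∀ ω ω', X ω = X ω' → ∀ l < k + t, F.X J ω (c l) = F.X J ω' (c l) := by
    intro ω ω' e l hl
    rw [hXd] at e
    exact congrFun e ⟨l, hl⟩
  have hXe : ∀ ω ω', X ω = X ω' → ∀ i ≤ k + t, ceI ((range i).image c) (fun _ => J) (F.x ω) =
      ceI ((range i).image c) (fun _ => J) (F.x ω') := fun ω ω' e i hi =>
    ceI_tup le_rfl fun l hl => hX ω ω' e l (by omega)
  -- the exact position
  have hfl : ∀ {N : ℝ}, N ≤ 1 → ⌊N * J⌋₊ ≤ J := fun hN => floor_le hN J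
  have key := fut_ent (q := q') h0 (f := f) (v := v) (u := u) (z := z) (z' := z') (W := F.W)
    (X := X) (x₁ := fun ω => F.X J ω (c (k + t))) (x₂ := fun ω => F.X ⌊U * J⌋₊ ω (c (k + t)))
    (u₂ := u₂) (a := ρ * J) (fl := ((1 - sn (k + t) x) - ρ) * Real.log 2 * J)
    (dJ := ((J : ℝ) - ⌊U * J⌋₊) * Real.log 2)
    (fun ω ω' hω hω' e => hzz ω ω' (hq'B ω hω) (hq'B ω' hω') e) ?_ ?_ ?_ ?_ ?_
  · refine le_trans ?_ key
    have s6 : ((J : ℝ) - ⌊U * J⌋₊) * Real.log 2 ≤ (1 - U) * Real.log 2 * J + ρ * J := by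
      have e1 := Nat.lt_floor_add_one (U * (J : ℝ))
      have e2 : ((J : ℝ) - ⌊U * J⌋₊) * Real.log 2 ≤ ((1 - U) * J + 1) * Real.log 2 :=
        mul_le_mul_of_nonneg_right (by linarith) hl2.le
      have e3 : 1 * Real.log 2 ≤ ρ * J := by linarith
      linarith
    have e1 : ρ * Real.log 2 * J ≤ ρ * J := by
      have := mul_le_mul_of_nonneg_left hl1 (mul_nonneg hρ0.le hJ0)
      linarith
    have e4 : ρ * ((f : ℝ) + 8) = ε := by
      rw [hρ]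
      field_simp
    have e5 : 0 ≤ ρ * J := by positivity
    have e6 : ((U - sn (k + t) x) * Real.log 2 - ε) * J =
        ((1 - sn (k + t) x) - ρ) * Real.log 2 * J - (1 - U) * Real.log 2 * J +
          ρ * Real.log 2 * J - ((f : ℝ) + 8) * (ρ * J) := by
      rw [← e4]
      ring
    rw [e6]
    have e7 : ((f : ℝ) + 8) * (ρ * J) = (f + 3) * (ρ * J) + 5 * (ρ * J) := by ring
    rw [e7]
    linarith
  · refine le_trans (CH_mono_cond h0 fun ω ω' hω hω' e => ?_) h4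
    simp only [Prod.mk.injEq] at e ⊢
    exact ⟨funext fun l => hX ω ω' e.1 l (by have := l.2; omega),
      hzb' ω ω' (hq'B ω hω) (hq'B ω' hω') e.2.1, e.2.2⟩
  · intro i hi
    rcases Nat.lt_or_ge i t with hit | hit
    · refine le_trans (CH_mono_cond h0 fun ω ω' hω hω' e => ?_) (h2 i hit)
      simp only [Prod.mk.injEq] at e ⊢
      refine ⟨?_, hXe ω ω' e.2.1 (k + i) (by omega), hzw' ω ω' (hq'B ω hω) (hq'B ω' hω') e.2.2.1,
        e.2.2.2⟩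
      rw [fX_coarse F (hfl (hM' i hit).2.1) (c (k + i)) ω,
        fX_coarse F (hfl (hM' i hit).2.1) (c (k + i)) ω', hX ω ω' e.2.1 (k + i) (by omega)]
    · refine le_trans (CH_mono_cond h0 fun ω ω' _ _ e => ?_) (h1 i hi hit)
      simp only [Prod.mk.injEq] at e ⊢
      exact ⟨e.1, e.2.2⟩
  · refine h5.trans ?_
    refine CH_mono_cond h0 fun ω ω' hω hω' e => ?_
    simp only [Prod.mk.injEq] at e ⊢
    refine ⟨by rw [hXd]; exact e.1, ?_, e.2.2⟩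
    rw [hψ ω (hq'B ω hω), hψ ω' (hq'B ω' hω')]
    exact e.2.1
  · refine le_trans (CH_mono_cond h0 fun ω ω' hω hω' e => ?_) h3
    simp only [Prod.mk.injEq] at e ⊢
    exact ⟨e.1, hXe ω ω' e.2.1 (k + t) le_rfl, hzw' ω ω' (hq'B ω hω) (hq'B ω' hω') e.2.2.1,
      e.2.2.2⟩
  · exact X_more hq'l (hfl hU.2.1) (c (k + t)) fun ω => (u₂ ω, (X ω, (z' ω, F.W ω)))

/-- **The fullness of the targets before the last one.** -/
theorem fulT (f : ℕ) : FulTStmt f := by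
  intro k
  obtain ⟨Cf, hCf⟩ : ∃ Cf : ℝ, Cf = 100 * ((k : ℝ) + f + 2) ^ 2 := ⟨_, rfl⟩
  have hCf1 : 1 ≤ Cf := by
    have h1 : (0 : ℝ) ≤ k := Nat.cast_nonneg k
    have h2 : (0 : ℝ) ≤ f := Nat.cast_nonneg f
    have h3 : 0 ≤ (k : ℝ) * f := mul_nonneg h1 h2
    rw [hCf]
    nlinarith
  refine ⟨Cf, hCf1, ?_⟩
  intro m S c D sn G b o φ L hI s w u y ξ T Λ C κ e lam j x x' xr xq w₁ vq oq xa N hC π₀ hπ ε hε
    Ec
  obtain ⟨n₀, hn₀⟩ := exists_nat_gt (1 / κ)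
  obtain ⟨b1, b2, b3, b4, b5, b6, b7, b8, b9, b10, b11, b12, b13, b14, b15, b16, b17⟩ := N.wb
  obtain ⟨c1, c2, c3, c4, -⟩ := N.nb_c
  obtain ⟨k1, k2, k3, k4, -⟩ := N.k9_c
  have hφ0 := N.φ0
  have hκ := N.κ0
  have hc0 : 0 ≤ Cf * φ := mul_nonneg (by linarith) hφ0.le
  have hc1 : Cf * φ ≤ C * φ := mul_le_mul_of_nonneg_right hC hφ0.le
  have h20 : 20 * φ ≤ Cf * φ := mul_le_mul_of_nonneg_right (by
    have h1 : (0 : ℝ) ≤ k := Nat.cast_nonneg k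
    have h2 : (0 : ℝ) ≤ f := Nat.cast_nonneg f
    have h3 : 0 ≤ (k : ℝ) * f := mul_nonneg h1 h2
    rw [hCf]
    nlinarith) hφ0.le
  have hl2 : 0 < Real.log 2 := Real.log_pos one_lt_two
  have hl1 : Real.log 2 ≤ 1 := by
    have := Real.log_two_lt_d9
    linarith
  have hxr1 : xr ≤ 1 := by
    have := L.o1
    linarith
  -- one block
  have hone : ∀ i < n₀, ∀ i' < n₀, ∀ v < f, Bas S (fun J F A =>
      ∀ Hb H : LnT F → ℕ → MvPolynomial (Option (Fin m)) ℝ,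
      LDP F c k f D b w φ Ec sn A Hb H → i < i' → (i' : ℝ) * κ ≤ 1 →
      ∀ B : F.Ω → Prop, Sub B A → π₀ * Pe F.p A ≤ Pe F.p B →
      ∀ (V : Type) (z : F.Ω → V), Cl2 (ptr F J) (vg (w + 1000 * φ) J F) B z →
      (((i' - i) * κ * (ξ * u) - 30 * y) * Real.log 2 - 8 * ((f : ℝ) + 1) * Cf * φ - ε) * J ≤
        CH (Pool.Agent.H49.Ent.cond F.p B True)
          (th0 F c (k + v) ⌊w * J⌋₊ H
            (sn (k + v) w + u + 500 * y + i' * κ * (ξ * u) - 2 * φ))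
          (fun ω => (thT F c k f ⌊w * J⌋₊ H (fun v' => if v' = f then
              sn (k + f) w + u + 500 * y + i * κ * (ξ * u) else
              sn (k + v') (xa (if v' < v then i' else i)) - Cf * φ) ω,
            (jh F c k ⌊w * J⌋₊ H (nfP k sn w xr φ) ω, (z ω, F.W ω))))) := by
    intro i _ i' _ v hv
    by_cases hi : i < i'
    swap
    · exact Bas.mono 0 (pos_bas L.pos) fun J _ F A _ Hb H _ h => absurd h hi
    by_cases ha : (i' : ℝ) * κ ≤ 1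
    swap
    · exact Bas.mono 0 (pos_bas L.pos) fun J _ F A _ Hb H _ _ h => absurd h ha
    have ha' : (i : ℝ) * κ ≤ 1 := by
      have h1 : (i : ℝ) ≤ i' := by exact_mod_cast hi.le
      exact (mul_le_mul_of_nonneg_right h1 hκ.le).trans ha
    obtain ⟨r1, r2, r3, r4, r5⟩ := N.fiu_c hi ha hc0 hc1
    obtain ⟨s1, s2, s3, s4, s5⟩ := N.row_c ha' hc0 hc1
    obtain ⟨t1, t2, t3, t4, t5⟩ := N.row_c ha hc0 hc1
    obtain ⟨M, hM⟩ : ∃ M : ℕ → ℝ, M = fun v' => if v' = f then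
        sn (k + f) w + u + 500 * y + i * κ * (ξ * u) else
        sn (k + v') (xa (if v' < v then i' else i)) - Cf * φ := ⟨_, rfl⟩
    obtain ⟨U, hU⟩ : ∃ U : ℝ, U = sn (k + v) w + u + 500 * y + i' * κ * (ξ * u) - 2 * φ :=
      ⟨_, rfl⟩
    rw [← hU, ← hM]
    obtain ⟨q1, q2, q3, q4, q5, q6, q7, q8, q9, q10, q11, q12⟩ := r5 (k + v) (by omega) (by omega)
    rw [← hU] at q2 q3 q9 q10 q12
    have hMx : ∀ u' : ℕ, v ≤ u' → u' ≤ f → M u' + Cf * φ ≤ sn (k + u') (xa i) ∧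
        M u' + Cf * φ ≤ sn (k + u') w + (xr - w) := by
      intro u' h1 h2
      obtain ⟨p1, p2, p3, p4, p5, p6, p7, p8, p9, p10, p11, p12, -⟩ :=
        s5 (k + u') (by omega) (by omega)
      rw [hM]
      by_cases h3 : u' = f
      · simp only [if_pos h3]
        rw [h3] at p6 p7 ⊢
        exact ⟨p6, p7⟩
      · simp only [if_neg h3, if_neg (show ¬ u' < v by omega)]
        exact ⟨p9, p10⟩
    have hM0 : ∀ u' < v, 0 ≤ M u' ∧ M u' ≤ 1 ∧ M u' + Cf * φ ≤ sn (k + u') w + (1 - w) ∧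
        ∀ l < k + u', M u' + Cf * φ ≤ sn (k + u') w + (1 - sn l w) := by
      intro u' h1
      obtain ⟨p1, p2, p3, p4, p5, p6, p7, p8, p9, p10, p11, p12, -⟩ :=
        t5 (k + u') (by omega) (by omega)
      rw [hM]
      simp only [if_neg (show ¬ u' = f by omega), if_pos h1]
      exact ⟨by linarith, p5, by linarith, fun l hl => p12 l (by omega)⟩
    obtain ⟨e₀, he₀, HR⟩ := fut L (w := w) (x := xa i) (x' := xr)
      (p := fun l => sn l b - φ) (n := nfP k sn w xr φ) (pr := fun u' => sn (k + u') w - φ)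
      (M := M) (U := U) (Cr := Cf) hCf.ge hv N.wG (N.aG i ha') b1 (by linarith) r2
      (fun l _ => le_rfl) (fun _ _ => le_rfl) (fun l hl => ⟨by linarith [r4 l hl], (c1 l hl).2⟩)
      c2 c3 hxr1 (fun l hl => by
        have h1 : nfP k sn w xr φ l - sn l w = (xr - w) + (30 * ((k : ℝ) - l) + 5) * φ := by
          unfold nfP
          ring
        have h2 : (0 : ℝ) ≤ (k : ℝ) - l := by
          have : (l : ℝ) ≤ k := by exact_mod_cast hl.le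
          linarith
        have h3 : 0 ≤ (30 * ((k : ℝ) - l) + 5) * φ := by positivity
        have h4 : 0 ≤ 28 * ((k : ℝ) + 1) * φ := by positivity
        linarith) hMx hM0
      ⟨by linarith, by linarith, q9, fun l hl => q10 l (by omega)⟩ hπ hε
    obtain ⟨N₁, J₁, hN₁⟩ := ld_jh m D k (nfP k sn w xr φ) (b := b) (E := Ec) k1 (by linarith)
    have hN₂ : ∀ i < f + 1, ∃ M₀ J₀ : ℕ, ∀ K ≥ M₀, ∀ J ≥ J₀, ∀ {F : Fam m J}
        {A : F.Ω → Prop} {Hb H : LnT F → ℕ → MvPolynomial (Option (Fin m)) ℝ},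
        LDP F c k f D b w φ Ec sn A Hb H → ∀ e : ℝ, 0 ≤ e →
        (qJet m ((range (k + i)).image c) (c (k + i)) 0 w (sn (k + i) w - φ) (M i)).P K e J F A
          (th0 F c (k + i) ⌊w * J⌋₊ H (M i)) := by
      intro i hi
      obtain ⟨M₀, J₀, h⟩ := ldp_th m D k f (k + i) (M i) (w := w) (E := Ec) (by omega) (by omega)
        (by linarith) k3.le
      exact ⟨M₀, J₀, fun K hK J hJ F A Hb H LDh e he => h K hK J hJ LDh e he⟩
    choose! N₂ J₂ hN₂ using hN₂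
    obtain ⟨N₄, J₄, hN₄⟩ := ldp_th m D k f (k + v) U (w := w) (E := Ec) (by omega) (by omega)
      (by linarith) k3.le
    obtain ⟨Nm, m1, m2, m4⟩ : ∃ M : ℕ, N₁ ≤ M ∧ (∀ i < f + 1, N₂ i ≤ M) ∧ N₄ ≤ M :=
      ⟨N₁ + (range (f + 1)).sup N₂ + N₄, by omega, fun i hi => by
        have := Finset.le_sup (f := N₂) (mem_range.2 hi)
        omega, by omega⟩
    refine Bas.mono (J₁ + (range (f + 1)).sup J₂ + J₄) (HR Nm) ?_
    rintro J hJ F A H1 Hb H LDh _ _ B hB hPB V z hz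
    have hz' : Cl2 (ptr F J) (vg (xa i) J F) B z := hz.mono ⟨fun x => x, fun _ _ => rfl⟩ (by
      obtain ⟨ψ, hψ⟩ := vg_mono r1 (show xa i ≤ 1 by linarith) J F
      exact ⟨ψ, fun ω _ => hψ ω⟩)
    have H2 := H1 (jh F c k ⌊w * J⌋₊ H (nfP k sn w xr φ))
      (fun v' => th0 F c (k + v') ⌊w * J⌋₊ H (M v')) (th0 F c (k + v) ⌊w * J⌋₊ H U)
      (hN₁ Nm m1 J (by omega) LDh.toLD e₀ he₀.le)
      (fun i' hi' => hN₂ i' hi' Nm (m2 i' hi') J (by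
        have := Finset.le_sup (f := J₂) (mem_range.2 hi')
        omega) LDh e₀ he₀.le)
      (hN₄ Nm m4 J (by omega) LDh e₀ he₀.le) B hB hPB V z hz'
    refine le_trans (mul_le_mul_of_nonneg_right ?_ (Nat.cast_nonneg J)) H2
    have a1 : ((i' - i) * κ * (ξ * u) - 30 * y - Cf * φ) * Real.log 2 ≤
        (U - sn (k + v) (xa i)) * Real.log 2 :=
      mul_le_mul_of_nonneg_right (by linarith) hl2.le
    have a2 : Cf * φ * Real.log 2 ≤ Cf * φ * 1 := mul_le_mul_of_nonneg_left hl1 hc0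
    have a3 : Cf * φ ≤ 8 * ((f : ℝ) + 1) * Cf * φ := by
      have h2 : (0 : ℝ) ≤ f := Nat.cast_nonneg f
      have h3 : 0 ≤ (f : ℝ) * (Cf * φ) := mul_nonneg h2 hc0
      nlinarith
    linarith
  refine Bas.mono 0 (Bas.all n₀ fun i hi => Bas.all n₀ fun i' hi' => Bas.all f fun v hv =>
    hone i hi i' hi' v hv) ?_
  rintro J - F A H1 Hb H LDh i i' hi ha v hv B hB hPB V z hz
  have hin : i' < n₀ := by
    have h2 : (i' : ℝ) ≤ 1 / κ := by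
      rw [le_div_iff₀ hκ]
      exact ha
    exact_mod_cast h2.trans_lt hn₀
  exact H1 i (hi.trans hin) i' hin v hv Hb H LDh hi ha B hB hPB V z hz

end Pool.V0T
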