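import Pool.Agent.H91.V0T.Rwr
import Pool.Agent.H48.V0T.Par

/-!
# The rows of several targets over the canonical records

`ldp_tg`: the digits of the heights of the targets are the quantity `qTg`. `rowt_fam : RowTStmt f`.
-/

set_option autoImplicit false

namespace Pool.V0T

open Finset Real MvPolynomial
open Pool.Agent.H49.Ent Pool.Agent.H32.Dense
open Pool.STK hiding pr2
open Pool.KA Pool.KSAT Pool.K2S Pool.PB Pool.S6C
open Pool.GEN Pool.CHT Pool.CHX Pool.ISO Pool.LA91 Pool.AVG71 Pool.AVG5 Pool.D2F2 Pool.AVG57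
open Pool.RCD Pool.AVG96 Pool.OWN68 Pool.V0F Pool.V0Q
open Pool.AJW (CfB)

/-- **The heights of the targets** as one quantity. -/
theorem ldp_tg (m D k f : ℕ) (N : ℕ → ℝ) {w E : ℝ} (hw0 : 0 ≤ w) (hw1 : w ≤ 1) :
    ∃ M J₁ : ℕ, ∀ K ≥ M, ∀ J ≥ J₁, ∀ {F : Fam m J} {c : ℕ → Fin m} {b φ : ℝ} {sn : ℕ → ℝ → ℝ}
      {A : F.Ω → Prop} {Hb H : LnT F → ℕ → MvPolynomial (Option (Fin m)) ℝ},
      LDP F c k f D b w φ E sn A Hb H → ∀ e : ℝ, 0 ≤ e →
      (qTg m c k (f + 1) w (fun v => sn (k + v) w - φ) N).P K e J F A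
        (thT F c k f ⌊w * J⌋₊ H N) := by
  choose M J₁ h using fun v : Fin (f + 1) => ldp_th m D k f (k + v) (N v) (w := w) (E := E)
    (Nat.le_add_right k v) (by have := v.2; omega) hw0 hw1
  refine ⟨Finset.univ.sup M, Finset.univ.sup J₁, fun K hK J hJ F c b φ sn A Hb H L e he v => ?_⟩
  exact h v K ((Finset.le_sup (Finset.mem_univ v)).trans hK) J
    ((Finset.le_sup (Finset.mem_univ v)).trans hJ) L e he

/-- **The rows** for one set of dead targets, with the constant `Cr`. -/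
def RowD (f k : ℕ) (Cr : ℝ) (Dd : Finset ℕ) : Prop :=
  ∀ {m : ℕ} {S : PCl m} {c : ℕ → Fin m} {D : ℕ} {sn : ℕ → ℝ → ℝ} {G : Set ℝ} {b o φ : ℝ},
    LadT S c k f sn G b o φ → (range (k + f)).image c = univ.erase (c (k + f)) →
    ∀ {s w u y ξ T Λ C κ e : ℝ} {lam : ℝ → ℝ} {j x x' xr xq w₁ vq oq : ℝ} {xa : ℕ → ℝ},
    NP k f s sn G b o φ w u y ξ T Λ C κ e lam j x x' xr xq w₁ vq oq xa → Cr ≤ C →
    ∀ {h : ℝ}, (∀ P₁ P₂ : ℝ, |P₁ - sn (k + f) w| ≤ Λ * u → |P₂ - sn (k + f) w| ≤ Λ * u →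
      P₁ ≤ P₂ → RawN S (univ.erase (c (k + f))) (c (k + f)) P₁ (P₂ - P₁) h φ) →
    (∃ rk E : ℝ, rk < 1 ∧ 0 ≤ E ∧
      AttG S ((range (k + f)).image c) (c (k + f)) w (sn (k + f) w) rk E ∧
      sn (k + f) w + E + Λ * u ≤ 1) →
    (∃ η : ℝ, RNum S (fun J F => ptr F J) (vg w₁) η) →
    ∀ π₀ : ℝ, 0 < π₀ → ∀ ε : ℝ, 0 < ε → ∀ Ec : ℝ,
    Bas S (fun J F A => ∀ Hb H : LnT F → ℕ → MvPolynomial (Option (Fin m)) ℝ,
      LDP F c k f D b w φ Ec sn A Hb H → ∀ a : ℕ, (a : ℝ) * κ ≤ 1 →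
      ∀ B : F.Ω → Prop, Sub B A → π₀ * Pe F.p A ≤ Pe F.p B →
      CH (Pool.Agent.H49.Ent.cond F.p B True)
        (thT F c k f ⌊w * J⌋₊ H (fun v => if v = f then
          sn (k + f) w + u + 500 * y + a * κ * (ξ * u) else sn (k + v) (xa a) - Cr * φ))
        (fun ω => (thT F c k f ⌊w * J⌋₊ H (fun v => if v ∈ Dd then sn (k + v) (xa a) - Cr * φ else
            sn (k + v) w + u + 500 * y - 2 * φ) ω,
          (jh F c k ⌊w * J⌋₊ H (nfP k sn w xr φ) ω, (cR F A w₁ ω, F.W ω)))) ≤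
        (((1 - h) * (a * κ * (ξ * u) + 2 * φ) +
            ((range f \ Dd).card : ℝ) * (a * κ * (ξ * u) + 22 * y)) * Real.log 2 + φ +
          8 * ((f : ℝ) + 1) * Cr * φ + ε) * J)

/-- **The rows** for one set of dead targets. -/
theorem rowt_d (k f : ℕ) : ∃ Cr : ℝ, 1 ≤ Cr ∧ ∀ Dd : Finset ℕ, f ∉ Dd → RowD f k Cr Dd := by
  obtain ⟨Cr, hCr1, H0⟩ := t_rwr k f
  refine ⟨Cr, hCr1, fun Dd hAl => ?_⟩
  intro m S c D sn G b o φ L hI s w u y ξ T Λ C κ e lam j x x' xr xq w₁ vq oq xa Nn hCC h hraw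
    hatt hη π₀ hπ ε hε Ec
  obtain ⟨rk, Ee, hrk, hEe, hat, hEs⟩ := hatt
  obtain ⟨η, hη⟩ := hη
  have hκ := Nn.κ0
  obtain ⟨n₀, hn₀⟩ := exists_nat_gt (1 / κ)
  have hφ0 := Nn.φ0
  have hf0 : (0 : ℝ) ≤ f := Nat.cast_nonneg f
  obtain ⟨b1, b2, b3, b4, b5, b6, b7, b8, b9, b10, b11, b12, b13, b14, b15, b16, b17⟩ := Nn.wb
  obtain ⟨k1, k2, k3, k4, -⟩ := Nn.k9_c
  obtain ⟨n1, n2, -⟩ := Nn.nb_c
  have hc0 : 0 ≤ Cr * φ := by positivity
  have hc1 : Cr * φ ≤ C * φ := mul_le_mul_of_nonneg_right hCC hφ0.le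
  have hl2 : 0 < Real.log 2 := Real.log_pos one_lt_two
  -- one row
  have hone : ∀ a < n₀, Bas S (fun J F A =>
      ∀ Hb H : LnT F → ℕ → MvPolynomial (Option (Fin m)) ℝ,
      LDP F c k f D b w φ Ec sn A Hb H → (a : ℝ) * κ ≤ 1 →
      ∀ B : F.Ω → Prop, Sub B A → π₀ * Pe F.p A ≤ Pe F.p B →
      CH (Pool.Agent.H49.Ent.cond F.p B True)
        (thT F c k f ⌊w * J⌋₊ H (fun v => if v = f then
          sn (k + f) w + u + 500 * y + a * κ * (ξ * u) else sn (k + v) (xa a) - Cr * φ))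
        (fun ω => (thT F c k f ⌊w * J⌋₊ H (fun v => if v ∈ Dd then sn (k + v) (xa a) - Cr * φ else
            sn (k + v) w + u + 500 * y - 2 * φ) ω,
          (jh F c k ⌊w * J⌋₊ H (nfP k sn w xr φ) ω, (cR F A w₁ ω, F.W ω)))) ≤
        (((1 - h) * (a * κ * (ξ * u) + 2 * φ) +
            ((range f \ Dd).card : ℝ) * (a * κ * (ξ * u) + 22 * y)) * Real.log 2 + φ +
          8 * ((f : ℝ) + 1) * Cr * φ + ε) * J) := by
    intro a _
    by_cases ha : (a : ℝ) * κ ≤ 1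
    swap
    · exact Bas.mono 0 (pos_bas L.pos) fun J _ F A _ Hb H _ h => absurd h ha
    obtain ⟨r1, r2, r3, r4, hr⟩ := Nn.row_c ha hc0 hc1
    obtain ⟨P₁, hP₁⟩ : ∃ P₁ : ℕ → ℝ, P₁ = fun v => if v ∈ Dd then sn (k + v) (xa a) - Cr * φ else
      sn (k + v) w + u + 500 * y - 2 * φ := ⟨_, rfl⟩
    obtain ⟨P₂, hP₂⟩ : ∃ P₂ : ℕ → ℝ, P₂ = fun v => if v = f then
      sn (k + f) w + u + 500 * y + a * κ * (ξ * u) else sn (k + v) (xa a) - Cr * φ := ⟨_, rfl⟩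
    have e1 : ∀ v, v ∉ Dd → P₁ v = sn (k + v) w + u + 500 * y - 2 * φ := fun v hv => by
      rw [hP₁]
      exact if_neg hv
    have e1' : ∀ v, v ∈ Dd → P₁ v = sn (k + v) (xa a) - Cr * φ := fun v hv => by
      rw [hP₁]
      exact if_pos hv
    have e2 : P₂ f = sn (k + f) w + u + 500 * y + a * κ * (ξ * u) := by
      rw [hP₂]
      exact if_pos rfl
    have e3 : ∀ v < f, P₂ v = sn (k + v) (xa a) - Cr * φ := fun v hv => by
      rw [hP₂]
      exact if_neg hv.ne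
    have hd : P₂ f - P₁ f = a * κ * (ξ * u) + 2 * φ := by
      rw [e1 f hAl, e2]
      ring
    have hP : ∀ v ≤ f, 0 ≤ P₁ v ∧ P₁ v ≤ P₂ v ∧ P₂ v ≤ 1 ∧ P₂ v + Cr * φ ≤ sn (k + v) (xa a) ∧
        P₂ v + Cr * φ ≤ sn (k + v) w + (xr - w) := fun v hv => by
      obtain ⟨c1, c2, c3, c4, c5, c6, c7, c8, c9, c10, c11, c12, c13, c14, c15, c16⟩ :=
        hr (k + v) (Nat.le_add_right k v) (by omega)
      rcases Nat.lt_or_ge v f with h1 | h1
      · rw [e3 v h1]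
        by_cases hv' : v ∈ Dd
        · rw [e1' v hv']
          exact ⟨c1.trans c4, le_rfl, c5, c9, c10⟩
        · rw [e1 v hv']
          exact ⟨c1, c4, c5, c9, c10⟩
      · obtain rfl : v = f := by omega
        rw [e1 v hAl, e2]
        exact ⟨c1, c2, c3, c6, c7⟩
    have hPn : ∀ v < f, sn (k + v) (xa a) ≤ P₂ v + 2 * Cr * φ := fun v hv => by
      rw [e3 v hv]
      linarith
    have hPl : ∀ v ≤ f, ∀ l < k + v, P₂ v + Cr * φ ≤ sn (k + v) w + (1 - sn l w) :=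
      fun v hv l hl => by
      obtain ⟨c1, c2, c3, c4, c5, c6, c7, c8, c9, c10, c11, c12, c13, c14, c15, c16⟩ :=
        hr (k + v) (Nat.le_add_right k v) (by omega)
      rcases Nat.lt_or_ge v f with h1 | h1
      · rw [e3 v h1]
        exact c12 l (by omega)
      · obtain rfl : v = f := by omega
        rw [e2]
        exact c11 l (by omega)
    obtain ⟨-, c2, -, -, -, -, -, -, -, -, -, -, c13, c14, -, -⟩ :=
      hr (k + f) (Nat.le_add_right k f) le_rfl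
    have hraw' := hraw (P₁ f) (P₂ f) (by rw [e1 f hAl]; exact c13) (by rw [e2]; exact c14)
      (by rw [e1 f hAl, e2]; exact c2)
    obtain ⟨κ₁, hκ₁, e₀, he₀, HR⟩ := H0 L hI (w := w) (w₁ := w₁) (x := xa a) (x' := xr)
      (p := fun l => sn l b - φ) (n := nfP k sn w xr φ) (pr := fun v => sn (k + v) w - φ)
      (P₁ := P₁) (P₂ := P₂) (h := h) (δ := φ) (E₁ := Ee) Nn.wG (Nn.aG a ha) Nn.rG b1 r1 r2 r3 r4
      (fun i _ => le_rfl) (fun _ _ => le_rfl) n1 n2 hP hPn hPl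
      ⟨rk, hrk, hEe, hat, by
        rw [e2]
        have := (abs_le.1 c14).2
        linarith⟩ hraw' Nn.hw1 k4.le hη π₀ hπ ε hε
    obtain ⟨M₁, J₁, hM₁⟩ := ld_jh m D k (nfP k sn w xr φ) (b := b) (E := Ec) k1 (by linarith)
    obtain ⟨M₂, J₂, hM₂⟩ := ldp_tg m D k f P₁ (w := w) (E := Ec) (by linarith) (by linarith)
    obtain ⟨M₃, J₃, hM₃⟩ := ldp_tg m D k f P₂ (w := w) (E := Ec) (by linarith) (by linarith)
    obtain ⟨M, hM⟩ : ∃ M : ℕ, M = M₁ + M₂ + M₃ := ⟨_, rfl⟩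
    refine Bas.mono (J₁ + J₂ + J₃) ((HR M).and (hη.at' κ₁ hκ₁)) ?_
    rintro J hJ F A ⟨H1, hq⟩ Hb H LDh _ B hB hPB
    have hJ0 : (0 : ℝ) ≤ J := Nat.cast_nonneg J
    have hcR : Cl2 (ptr F J) (vg w₁ J F) A (cR F A w₁) := by
      refine ⟨?_, ?_⟩
      · choose φ hφ using fun D : {D : F.Ω → Prop // Cl2 (ptr F J) (vg w₁ J F) A D} => D.2.1
        exact ⟨fun x D => φ D x, fun ω hω => funext fun D => hφ D ω hω⟩
      · choose φ hφ using fun D : {D : F.Ω → Prop // Cl2 (ptr F J) (vg w₁ J F) A D} => D.2.2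
        exact ⟨fun x D => φ D x, fun ω hω => funext fun D => hφ D ω hω⟩
    have H2 := H1 _ (cR F A w₁) hcR (fun v => cR_cell hq v) (jh F c k ⌊w * J⌋₊ H (nfP k sn w xr φ))
      (thT F c k f ⌊w * J⌋₊ H P₁) (thT F c k f ⌊w * J⌋₊ H P₂)
      (hM₁ M (by omega) J (by omega) LDh.toLD e₀ he₀.le)
      (hM₂ M (by omega) J (by omega) LDh e₀ he₀.le) (hM₃ M (by omega) J (by omega) LDh e₀ he₀.le)
      B hB hPB
    rw [hd] at H2
    have e4 : ∑ v ∈ range f, (P₂ v - P₁ v) ≤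
        ((range f \ Dd).card : ℝ) * (a * κ * (ξ * u) + 22 * y) := by
      have e5 : ∑ v ∈ range f, (P₂ v - P₁ v) ≤ ∑ v ∈ range f,
          (if v ∉ Dd then (a * κ * (ξ * u) + 22 * y) else 0) :=
        Finset.sum_le_sum fun v hv => by
          have hvf := Finset.mem_range.1 hv
          rw [e3 v hvf]
          by_cases hv' : v ∈ Dd
          · rw [e1' v hv', if_neg (fun h => h hv'), sub_self]
          · rw [e1 v hv', if_pos hv']
            obtain ⟨-, -, -, -, -, -, -, -, -, -, -, -, -, -, c15, -⟩ :=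
              hr (k + v) (Nat.le_add_right k v) (by omega)
            exact c15
      rw [← Finset.sum_filter, Finset.sum_const, nsmul_eq_mul, Finset.filter_notMem_eq_sdiff] at e5
      exact e5
    rw [← hP₁, ← hP₂]
    refine H2.trans (mul_le_mul_of_nonneg_right ?_ hJ0)
    have e6 : ((1 - h) * (a * κ * (ξ * u) + 2 * φ) + ∑ v ∈ range f, (P₂ v - P₁ v)) * Real.log 2 ≤
        ((1 - h) * (a * κ * (ξ * u) + 2 * φ) +
          ((range f \ Dd).card : ℝ) * (a * κ * (ξ * u) + 22 * y)) * Real.log 2 :=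
      mul_le_mul_of_nonneg_right (by linarith) hl2.le
    linarith
  refine Bas.mono 0 (Bas.all n₀ hone) ?_
  rintro J - F A H1 Hb H LDh a ha B hB hPB
  have han : a < n₀ := by
    have h2 : (a : ℝ) ≤ 1 / κ := by
      rw [le_div_iff₀ hκ]
      exact ha
    exact_mod_cast h2.trans_lt hn₀
  exact H1 a han Hb H LDh ha B hB hPB

/-- A statement for finitely many indices. -/
theorem bas_fin {m : ℕ} {S : PCl m} {ι : Type} [DecidableEq ι] (s : Finset ι) {Φ : ι → Stat m}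
    (h : ∀ i ∈ s, Bas S (Φ i)) : Bas S (fun J F A => ∀ i ∈ s, Φ i J F A) := by
  induction s using Finset.induction_on with
  | empty => exact ⟨1, one_pos, 0, fun _ _ _ _ _ i hi => absurd hi (Finset.notMem_empty i)⟩
  | insert j s hj ih =>
    refine Bas.mono 0 ((ih fun i hi => h i (Finset.mem_insert_of_mem hi)).and
      (h j (Finset.mem_insert_self j s))) ?_
    rintro J - F A ⟨h1, h2⟩ i hi
    rcases Finset.mem_insert.1 hi with rfl | h3
    · exact h2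
    · exact h1 i h3

/-- **(ROWT)** The rows of the targets. -/
theorem rowt_fam (f : ℕ) : RowTStmt f := by
  intro k
  obtain ⟨Cr, hCr1, H0⟩ := rowt_d k f
  refine ⟨Cr, hCr1, ?_⟩
  intro m S c D sn G b o φ L hI s w u y ξ T Λ C κ e lam j x x' xr xq w₁ vq oq xa Nn hCC h hraw
    hatt hη π₀ hπ ε hε Ec
  refine Bas.mono 0 (bas_fin ((range f).powerset) fun D' hD' => H0 D' (fun h1 =>
    absurd (Finset.mem_range.1 (Finset.mem_powerset.1 hD' h1)) (lt_irrefl f)) L hI Nn hCC hraw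
    hatt hη π₀ hπ ε hε Ec (D := D)) ?_
  rintro J - F A H1 Hb H LDh a ha Dd hDd B hB hPB
  have h2 := H1 (Dd ∩ range f) (Finset.mem_powerset.2 Finset.inter_subset_right) Hb H LDh a ha B
    hB hPB
  have h3 : range f \ (Dd ∩ range f) = range f \ Dd := by
    ext i
    simp only [Finset.mem_sdiff, Finset.mem_inter, not_and]
    exact ⟨fun h => ⟨h.1, fun h' => h.2 h' h.1⟩, fun h => ⟨h.1, fun h' => absurd h' h.2⟩⟩
  have h4 : thT F c k f ⌊w * J⌋₊ H (fun v => if v ∈ Dd ∩ range f then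
      sn (k + v) (xa a) - Cr * φ else sn (k + v) w + u + 500 * y - 2 * φ) =
      thT F c k f ⌊w * J⌋₊ H (fun v => if v ∈ Dd then sn (k + v) (xa a) - Cr * φ else
        sn (k + v) w + u + 500 * y - 2 * φ) := by
    funext ω v
    unfold thT
    have h5 : ((v : ℕ) ∈ Dd ∩ range f) ↔ (v : ℕ) ∈ Dd := by
      rw [Finset.mem_inter, Finset.mem_range]
      refine ⟨fun h => h.1, fun h => ⟨h, ?_⟩⟩
      rcases Nat.lt_or_ge (v : ℕ) f with h6 | h6
      · exact h6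
      · have h7 : (v : ℕ) = f := by
          have := v.2
          omega
        rw [h7] at h
        exact absurd h hDd
    simp only [h5]
  rw [h3, h4] at h2
  exact h2

end Pool.V0T
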