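import Pool.Agent.H48.V0T.S
import Pool.Agent.H50.V0P.Rwp

/-!
# The rows of several targets: entropies

`ent_ins`: the heights of the targets one by one, the exact position of a target is inserted after
its height. `rwt_ent`: with the exact positions of the slope-one places inserted first. `uni`:
common constants for finitely many statements.
-/

set_option autoImplicit false

namespace Pool.V0T

open Finset Real MvPolynomial
open Pool.Agent.H49.Ent Pool.Agent.H32.Dense Pool.STK Pool.KA Pool.KSAT Pool.K2S Pool.PB Pool.GEN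
open Pool.S6C Pool.RCD Pool.LA91 Pool.AVG96 Pool.OWN68 Pool.V0F

/-- **Common constants** for finitely many statements. -/
theorem uni {m : ℕ} {S : PCl m} {Φ : ℕ → ℝ → ℝ → ℕ → Stat m} : ∀ n : ℕ,
    (∀ i < n, ∃ κ : ℝ, 0 < κ ∧ ∃ e : ℝ, 0 < e ∧ ∀ K : ℕ, Bas S (Φ i κ e K)) →
    (∀ i < n, ∀ {κ κ' e e' : ℝ} {K J : ℕ} {F : Fam m J} {A : F.Ω → Prop}, κ ≤ κ' → e ≤ e' →
      Φ i κ' e' K J F A → Φ i κ e K J F A) →
    ∃ κ : ℝ, 0 < κ ∧ ∃ e : ℝ, 0 < e ∧ ∀ K : ℕ, Bas S (fun J F A => ∀ i < n, Φ i κ e K J F A)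
  | 0, _, _ => ⟨1, one_pos, 1, one_pos, fun _ => ⟨1, one_pos, 0,
      fun _ _ _ _ _ i hi => absurd hi (Nat.not_lt_zero i)⟩⟩
  | n + 1, h, hm => by
    obtain ⟨κ₁, hκ₁, e₁, he₁, H₁⟩ := uni n (fun i hi => h i (by omega)) fun i hi => hm i (by omega)
    obtain ⟨κ₂, hκ₂, e₂, he₂, H₂⟩ := h n (Nat.lt_succ_self n)
    refine ⟨min κ₁ κ₂, lt_min hκ₁ hκ₂, min e₁ e₂, lt_min he₁ he₂, fun K =>
      Bas.mono 0 ((H₁ K).and (H₂ K)) ?_⟩
    rintro J - F A ⟨h1, h2⟩ i hi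
    rcases Nat.lt_or_ge i n with h3 | h3
    · exact hm i hi (min_le_left _ _) (min_le_left _ _) (h1 i h3)
    · obtain rfl : i = n := by omega
      exact hm i hi (min_le_right _ _) (min_le_right _ _) h2

section ent

variable {Ω : Type} [Fintype Ω] {q : Ω → ℝ} {T : Type}

/-- The first `t` values. -/
def pre (X : ℕ → Ω → ℤ) (t : ℕ) (ω : Ω) (i : Fin t) : ℤ := X i ω

/-- The values from `t` on. -/
def rst (X : ℕ → Ω → ℤ) (t n : ℕ) (ω : Ω) (i : Fin n) : ℤ := if t ≤ i then X i ω else 0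

omit [Fintype Ω] in
theorem pre_of {X : ℕ → Ω → ℤ} {t : ℕ} {ω ω' : Ω} (h : ∀ i < t, X i ω = X i ω') :
    pre X t ω = pre X t ω' := funext fun i => h i i.2

omit [Fintype Ω] in
theorem pre_at {X : ℕ → Ω → ℤ} {t : ℕ} {ω ω' : Ω} (h : pre X t ω = pre X t ω') {i : ℕ}
    (hi : i < t) : X i ω = X i ω' := congrFun h ⟨i, hi⟩

omit [Fintype Ω] in
theorem rst_of {X : ℕ → Ω → ℤ} {t n : ℕ} {ω ω' : Ω} (h : ∀ i, t ≤ i → i < n → X i ω = X i ω') :
    rst X t n ω = rst X t n ω' := by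
  funext i
  unfold rst
  by_cases hi : t ≤ i
  · rw [if_pos hi, if_pos hi]
    exact h i hi i.2
  · rw [if_neg hi, if_neg hi]

omit [Fintype Ω] in
theorem rst_at {X : ℕ → Ω → ℤ} {t n : ℕ} {ω ω' : Ω} (h : rst X t n ω = rst X t n ω') {i : ℕ}
    (h1 : t ≤ i) (hi : i < n) : X i ω = X i ω' := by
  have h2 := congrFun h ⟨i, hi⟩
  unfold rst at h2
  simpa only [if_pos h1] using h2

/-- **The heights one by one**, each followed by the exact position. -/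
theorem ent_ins (h0 : ∀ ω, 0 ≤ q ω) {n : ℕ} {V X : ℕ → Ω → ℤ} {Y : Ω → T} {g b fl : ℕ → ℝ}
    (hg : ∀ i ≤ n, CH q (V i) (fun ω => (pre X i ω, Y ω)) ≤ g i)
    (hb : ∀ i < n, CH q (X i) (fun ω => (V i ω, (pre X i ω, Y ω))) ≤ b i)
    (hf : ∀ i < n, fl i ≤ CH q (X i) (fun ω => (pre V (n + 1) ω, (pre X i ω, Y ω)))) :
    CH q (pre V (n + 1)) Y ≤ ∑ i ∈ range (n + 1), g i + ∑ i ∈ range n, (b i - fl i) := by
  have key : ∀ d t : ℕ, t + d = n →
      CH q (rst V t (n + 1)) (fun ω => (pre V t ω, (pre X t ω, Y ω))) ≤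
        ∑ i ∈ Ico t (n + 1), g i + ∑ i ∈ Ico t n, (b i - fl i) := by
    intro d
    induction d with
    | zero =>
      intro t ht
      obtain rfl : t = n := by omega
      rw [Finset.sum_eq_sum_Ico_succ_bot (Nat.lt_succ_self t), Finset.Ico_self, Finset.sum_empty,
        Finset.Ico_self, Finset.sum_empty, add_zero, add_zero]
      refine le_trans (CH_mono_left h0 (X' := V t) fun ω ω' _ _ e => ?_)
        (le_trans (CH_mono_cond h0 fun ω ω' _ _ e => ?_) (hg t le_rfl))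
      · refine rst_of fun i h1 h2 => ?_
        obtain rfl : i = t := by omega
        exact (Prod.ext_iff.mp e).1
      · exact (Prod.ext_iff.mp e).2
    | succ d ih =>
      intro t ht
      have htn : t < n := by omega
      have h1 := ih (t + 1) (by omega)
      rw [Finset.sum_eq_sum_Ico_succ_bot (show t < n + 1 by omega),
        Finset.sum_eq_sum_Ico_succ_bot htn]
      obtain ⟨W, hW⟩ : ∃ W : Ω → (Fin t → ℤ) × ((Fin t → ℤ) × T), W = fun ω =>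
        (pre V t ω, (pre X t ω, Y ω)) := ⟨_, rfl⟩
      obtain ⟨W₁, hW₁⟩ : ∃ W₁ : Ω → (Fin (t + 1) → ℤ) × ((Fin t → ℤ) × T), W₁ = fun ω =>
        (pre V (t + 1) ω, (pre X t ω, Y ω)) := ⟨_, rfl⟩
      rw [← hW]
      -- the height of the place `t`
      have a1 : CH q (rst V t (n + 1)) W ≤ CH q (fun ω => (rst V (t + 1) (n + 1) ω, V t ω)) W :=
        CH_mono_left h0 fun ω ω' _ _ e => by
          simp only [Prod.mk.injEq] at e
          refine rst_of fun i h1 h2 => ?_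
          rcases Nat.eq_or_lt_of_le h1 with h3 | h3
          · rw [← h3]
            exact e.1.2
          · exact rst_at e.1.1 h3 h2
      have a2 := CH_chain h0 (rst V (t + 1) (n + 1)) (V t) W
      have a3 : CH q (V t) W ≤ CH q (V t) (fun ω => (pre X t ω, Y ω)) :=
        CH_mono_cond h0 fun ω ω' _ _ e => by
          rw [hW] at e
          exact (Prod.ext_iff.mp e).2
      have a4 : CH q (rst V (t + 1) (n + 1)) (fun ω => (V t ω, W ω)) ≤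
          CH q (rst V (t + 1) (n + 1)) W₁ := CH_mono_cond h0 fun ω ω' _ _ e => by
        rw [hW] at e
        rw [hW₁]
        simp only [Prod.mk.injEq] at e ⊢
        refine ⟨pre_of fun i hi => ?_, e.2.2⟩
        rcases Nat.lt_succ_iff_lt_or_eq.1 hi with h3 | h3
        · exact pre_at e.2.1 h3
        · rw [h3]
          exact e.1
      -- the exact position is inserted
      have a5 := Pool.OWN68.CH_exch h0 (rst V (t + 1) (n + 1)) (X t) W₁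
      have a6 : CH q (X t) W₁ ≤ CH q (X t) (fun ω => (V t ω, (pre X t ω, Y ω))) :=
        CH_mono_cond h0 fun ω ω' _ _ e => by
          rw [hW₁] at e
          simp only [Prod.mk.injEq] at e ⊢
          exact ⟨pre_at e.1 (Nat.lt_succ_self t), e.2⟩
      have a7 : CH q (rst V (t + 1) (n + 1)) (fun ω => (X t ω, W₁ ω)) ≤
          CH q (rst V (t + 1) (n + 1)) (fun ω => (pre V (t + 1) ω, (pre X (t + 1) ω, Y ω))) :=
        CH_mono_cond h0 fun ω ω' _ _ e => by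
          rw [hW₁] at e
          simp only [Prod.mk.injEq] at e ⊢
          refine ⟨e.2.1, pre_of fun i hi => ?_, e.2.2.2⟩
          rcases Nat.lt_succ_iff_lt_or_eq.1 hi with h3 | h3
          · exact pre_at e.2.2.1 h3
          · rw [h3]
            exact e.1
      have a8 : CH q (X t) (fun ω => (pre V (n + 1) ω, (pre X t ω, Y ω))) ≤
          CH q (X t) (fun ω => (rst V (t + 1) (n + 1) ω, W₁ ω)) :=
        CH_mono_cond h0 fun ω ω' _ _ e => by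
          rw [hW₁]
          simp only [Prod.mk.injEq] at e ⊢
          exact ⟨rst_of fun i _ hi => pre_at e.1 hi, pre_of fun i hi => pre_at e.1 (by omega),
            e.2⟩
      have a9 := hg t (by omega)
      have a10 := hb t htn
      have a11 := hf t htn
      linarith
  have h1 := key n 0 (Nat.zero_add n)
  rw [← Finset.range_eq_Ico, ← Finset.range_eq_Ico] at h1
  refine le_trans ?_ h1
  refine le_trans (CH_mono_left h0 (X' := rst V 0 (n + 1)) fun ω ω' _ _ e =>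
    pre_of fun i hi => rst_at (Prod.ext_iff.mp e).1 (Nat.zero_le i) hi)
    (CH_mono_cond h0 fun ω ω' _ _ e => ?_)
  simp only [Prod.mk.injEq]
  exact ⟨funext fun i => i.elim0, funext fun i => i.elim0, e⟩

/-- Subadditivity for the first values. -/
theorem CH_pre (h0 : ∀ ω, 0 ≤ q ω) {n : ℕ} {V : ℕ → Ω → ℤ} {Y : Ω → T} {a : ℝ}
    (h : ∀ i < n, CH q (V i) Y ≤ a) : CH q (pre V n) Y ≤ n * a := by
  have h1 := CH_pis h0 (pre V n) Y
  have h2 : ∑ i : Fin n, CH q (fun ω => pre V n ω i) Y ≤ ∑ _i : Fin n, a :=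
    Finset.sum_le_sum fun i _ => h i i.2
  rw [Finset.sum_const, Finset.card_univ, Fintype.card_fin, nsmul_eq_mul] at h2
  exact h1.trans h2

/-- **The entropies of the rows of the targets.** -/
theorem rwt_ent (h0 : ∀ ω, 0 ≤ q ω) {T₁ T₂ T₃ T₄ T₅ T₆ T₇ T₈ : Type} {n : ℕ}
    {V₁ V₂ X D₁ D₂ : ℕ → Ω → ℤ} {u : Ω → T₁} {us : Ω → T₂} {X0 : Ω → T₃} {z : Ω → T₄}
    {z' : Ω → T₅} {zx : Ω → T₆} {zb : Ω → T₇} {W : Ω → T₈} {a s₀ s₁ : ℝ} {dQ dJ fl : ℕ → ℝ}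
    (hzx' : Det q z' z) (hzx : Det q zx z) (hbx : Det q zx zb) (hzb : CH q zb z ≤ a)
    (b1 : s₁ ≤ CH q X0 (fun ω => (u ω, (z' ω, W ω))))
    (b2 : CH q X0 (fun ω => (u ω, (zb ω, W ω))) ≤ s₀)
    (b3 : CH q u (fun ω => (X0 ω, (zb ω, W ω))) ≤ a)
    (c1 : ∀ i ≤ n, CH q (V₁ i) (fun ω => (z' ω, W ω)) ≤ a)
    (c2 : ∀ i ≤ n, CH q (V₂ i) (fun ω => (z' ω, W ω)) ≤ a)
    (d1 : ∀ i ≤ n, CH q (D₁ i) (fun ω => (V₁ i ω, (pre X i ω, (X0 ω, (z ω, W ω))))) ≤ a)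
    (d2 : ∀ i ≤ n, CH q (D₂ i) (fun ω => (D₁ i ω, (pre X i ω, (X0 ω, W ω)))) ≤ dQ i)
    (d3 : ∀ i ≤ n, CH q (V₂ i) (fun ω => (D₂ i ω, (pre X i ω, (X0 ω, (z ω, W ω))))) ≤ a)
    (d4 : ∀ i < n, CH q (D₂ i) (fun ω => (V₂ i ω, (pre X i ω, (X0 ω, (z ω, W ω))))) ≤ a)
    (d5 : ∀ i < n, CH q (X i) (fun ω => (D₂ i ω, X0 ω)) ≤ dJ i)
    (g0 : CH q us (fun ω => (X0 ω, (zb ω, W ω))) ≤ a)
    (g1 : ∀ i ≤ n, CH q (V₁ i) (fun ω => (us ω, (zx ω, W ω))) ≤ a)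
    (g2 : ∀ i ≤ n, CH q (V₂ i) (fun ω => (us ω, (zx ω, W ω))) ≤ a)
    (hf : ∀ i < n, fl i ≤ CH q (X i) (fun ω => (pre X i ω, (X0 ω, (zx ω, W ω))))) :
    CH q (pre V₂ (n + 1)) (fun ω => (pre V₁ (n + 1) ω, (u ω, (z ω, W ω)))) ≤
      (s₀ - s₁) + ∑ i ∈ range (n + 1), dQ i + ∑ i ∈ range n, (dJ i - fl i) +
        9 * ((n : ℝ) + 1) ^ 2 * a := by
  have b3' : 0 ≤ a := (CH_nonneg h0 _ _).trans hzb
  have hn0 : (0 : ℝ) ≤ n := Nat.cast_nonneg n
  have hcast : (((n + 1 : ℕ) : ℝ)) = (n : ℝ) + 1 := by push_cast; ring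
  obtain ⟨A₁, hA₁⟩ : ∃ A₁ : Ω → Fin (n + 1) → ℤ, A₁ = pre V₁ (n + 1) := ⟨_, rfl⟩
  obtain ⟨A₂, hA₂⟩ : ∃ A₂ : Ω → Fin (n + 1) → ℤ, A₂ = pre V₂ (n + 1) := ⟨_, rfl⟩
  obtain ⟨Y, hY⟩ : ∃ Y : Ω → (Fin (n + 1) → ℤ) × (T₁ × (T₄ × T₈)),
    Y = fun ω => (A₁ ω, (u ω, (z ω, W ω))) := ⟨_, rfl⟩
  obtain ⟨C', hC'⟩ : ∃ C' : Ω → T₁ × (T₅ × T₈), C' = fun ω => (u ω, (z' ω, W ω)) := ⟨_, rfl⟩
  rw [← hA₂, ← hA₁, ← hY]
  -- the exact positions of the slope-one places are inserted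
  have t1 := Pool.OWN68.CH_exch h0 A₂ X0 Y
  have t2 := CH_le_add h0 X0 zb Y
  have t3 : CH q zb Y ≤ CH q zb z := CH_mono_cond h0 fun ω ω' _ _ e => by
    rw [hY] at e
    simp only [Prod.mk.injEq] at e
    exact e.2.2.1
  have t4 : CH q X0 (fun ω => (zb ω, Y ω)) ≤ CH q X0 (fun ω => (u ω, (zb ω, W ω))) :=
    CH_mono_cond h0 fun ω ω' _ _ e => by
      rw [hY] at e
      simp only [Prod.mk.injEq] at e ⊢
      exact ⟨e.2.2.1, e.1, e.2.2.2.2⟩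
  have t5 : CH q X0 (fun ω => ((A₂ ω, A₁ ω), C' ω)) ≤ CH q X0 (fun ω => (A₂ ω, Y ω)) :=
    CH_mono_cond h0 fun ω ω' hω hω' e => by
      rw [hC'] at e
      rw [hY]
      simp only [Prod.mk.injEq] at e ⊢
      exact ⟨e.1.1, e.1.2, e.2.1, hzx' ω ω' hω hω' e.2.2.1, e.2.2.2⟩
  have t6 := CH_le_add h0 X0 (fun ω => (A₂ ω, A₁ ω)) C'
  have t7 := CH_subadd h0 A₂ A₁ C'
  have hC'W : ∀ {T : Type} (f : Ω → T), CH q f C' ≤ CH q f (fun ω => (z' ω, W ω)) := fun f =>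
    CH_mono_cond h0 fun ω ω' _ _ e => by
      rw [hC'] at e
      exact (Prod.ext_iff.mp e).2
  have t8 : CH q A₂ C' ≤ ((n : ℝ) + 1) * a := by
    rw [hA₂, ← hcast]
    exact CH_pre h0 fun i hi => (hC'W (V₂ i)).trans (c2 i (by omega))
  have t9 : CH q A₁ C' ≤ ((n : ℝ) + 1) * a := by
    rw [hA₁, ← hcast]
    exact CH_pre h0 fun i hi => (hC'W (V₁ i)).trans (c1 i (by omega))
  rw [← hC'] at b1
  -- the positions of the targets are full given all this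
  obtain ⟨C₀, hC₀⟩ : ∃ C₀ : Ω → T₃ × (T₆ × T₈), C₀ = fun ω => (X0 ω, (zx ω, W ω)) := ⟨_, rfl⟩
  obtain ⟨R, hR⟩ : ∃ R : Ω → (Fin (n + 1) → ℤ) × ((Fin (n + 1) → ℤ) × T₁), R = fun ω =>
    (A₂ ω, (A₁ ω, u ω)) := ⟨_, rfl⟩
  have f3 := CH_le_add h0 R us C₀
  have f4 : CH q us C₀ ≤ CH q us (fun ω => (X0 ω, (zb ω, W ω))) :=
    CH_mono_cond h0 fun ω ω' hω hω' e => by
      rw [hC₀] at e
      simp only [Prod.mk.injEq] at e ⊢
      exact ⟨e.1, hbx ω ω' hω hω' e.2.1, e.2.2⟩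
  obtain ⟨C₁, hC₁⟩ : ∃ C₁ : Ω → T₂ × (T₃ × (T₆ × T₈)), C₁ = fun ω => (us ω, C₀ ω) := ⟨_, rfl⟩
  have f5 : CH q R C₁ ≤ CH q A₂ C₁ + (CH q A₁ C₁ + CH q u C₁) := by
    have a1 := CH_subadd h0 A₂ (fun ω => (A₁ ω, u ω)) C₁
    have a2 := CH_subadd h0 A₁ u C₁
    rw [hR]
    linarith
  have f8 : CH q u C₁ ≤ CH q u (fun ω => (X0 ω, (zb ω, W ω))) :=
    CH_mono_cond h0 fun ω ω' hω hω' e => by
      rw [hC₁, hC₀] at e
      simp only [Prod.mk.injEq] at e ⊢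
      exact ⟨e.2.1, hbx ω ω' hω hω' e.2.2.1, e.2.2.2⟩
  have hC₁W : ∀ {T : Type} (f : Ω → T), CH q f C₁ ≤ CH q f (fun ω => (us ω, (zx ω, W ω))) :=
    fun f => CH_mono_cond h0 fun ω ω' _ _ e => by
      rw [hC₁, hC₀] at e
      simp only [Prod.mk.injEq] at e ⊢
      exact ⟨e.1, e.2.2⟩
  have f6 : CH q A₂ C₁ ≤ ((n : ℝ) + 1) * a := by
    rw [hA₂, ← hcast]
    exact CH_pre h0 fun i hi => (hC₁W (V₂ i)).trans (g2 i (by omega))
  have f7 : CH q A₁ C₁ ≤ ((n : ℝ) + 1) * a := by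
    rw [hA₁, ← hcast]
    exact CH_pre h0 fun i hi => (hC₁W (V₁ i)).trans (g1 i (by omega))
  rw [← hC₁] at f3
  have f9 : CH q R C₀ ≤ (2 * (n : ℝ) + 4) * a := by
    have : (2 * (n : ℝ) + 4) * a = ((n : ℝ) + 1) * a + ((n : ℝ) + 1) * a + 2 * a := by ring
    linarith
  -- one target after the other
  have key := ent_ins h0 (n := n) (V := V₂) (X := X) (Y := fun ω => (X0 ω, Y ω))
    (g := fun i => 2 * a + dQ i) (b := fun i => a + dJ i)
    (fl := fun i => fl i - (2 * (n : ℝ) + 4) * a) (fun i hi => ?_) (fun i hi => ?_)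
    (fun i hi => ?_)
  · rw [← hA₂] at key
    have e1 : ∑ i ∈ range (n + 1), (2 * a + dQ i) =
        2 * ((n : ℝ) + 1) * a + ∑ i ∈ range (n + 1), dQ i := by
      rw [Finset.sum_add_distrib, Finset.sum_const, card_range, nsmul_eq_mul]
      push_cast
      ring
    have e2 : ∑ i ∈ range n, (a + dJ i - (fl i - (2 * (n : ℝ) + 4) * a)) =
        (n : ℝ) * (2 * n + 5) * a + ∑ i ∈ range n, (dJ i - fl i) := by
      rw [show (fun i => a + dJ i - (fl i - (2 * (n : ℝ) + 4) * a)) =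
        fun i => (2 * (n : ℝ) + 5) * a + (dJ i - fl i) from funext fun i => by ring,
        Finset.sum_add_distrib, Finset.sum_const, card_range, nsmul_eq_mul]
      ring
    rw [e1, e2] at key
    have e3 : 0 ≤ (n : ℝ) * a := mul_nonneg hn0 b3'
    have e4 : 0 ≤ (n : ℝ) ^ 2 * a := by positivity
    have e5 : 9 * ((n : ℝ) + 1) ^ 2 * a = 9 * ((n : ℝ) ^ 2 * a) + 18 * (n * a) + 9 * a := by ring
    have e6 : (n : ℝ) * (2 * n + 5) * a = 2 * ((n : ℝ) ^ 2 * a) + 5 * (n * a) := by ring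
    have e7 : ((n : ℝ) + 1) * a = n * a + a := by ring
    have e8 : 2 * ((n : ℝ) + 1) * a = 2 * (n * a) + 2 * a := by ring
    rw [e5]
    rw [e6, e8] at key
    rw [e7] at t8 t9
    linarith
  · -- the height of one place
    have r1 := CH_le_add h0 (V₂ i) (D₁ i) (fun ω => (pre X i ω, (X0 ω, Y ω)))
    have r2 := CH_le_add h0 (V₂ i) (D₂ i) (fun ω => (D₁ i ω, (pre X i ω, (X0 ω, Y ω))))
    have r3 : CH q (D₁ i) (fun ω => (pre X i ω, (X0 ω, Y ω))) ≤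
        CH q (D₁ i) (fun ω => (V₁ i ω, (pre X i ω, (X0 ω, (z ω, W ω))))) :=
      CH_mono_cond h0 fun ω ω' _ _ e => by
        rw [hY, hA₁] at e
        simp only [Prod.mk.injEq] at e ⊢
        exact ⟨pre_at e.2.2.1 (by omega), e.1, e.2.1, e.2.2.2.2⟩
    have r4 : CH q (D₂ i) (fun ω => (D₁ i ω, (pre X i ω, (X0 ω, Y ω)))) ≤
        CH q (D₂ i) (fun ω => (D₁ i ω, (pre X i ω, (X0 ω, W ω)))) :=
      CH_mono_cond h0 fun ω ω' _ _ e => by
        rw [hY] at e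
        simp only [Prod.mk.injEq] at e ⊢
        exact ⟨e.1, e.2.1, e.2.2.1, e.2.2.2.2.2.2⟩
    have r5 : CH q (V₂ i) (fun ω => (D₂ i ω, (D₁ i ω, (pre X i ω, (X0 ω, Y ω))))) ≤
        CH q (V₂ i) (fun ω => (D₂ i ω, (pre X i ω, (X0 ω, (z ω, W ω))))) :=
      CH_mono_cond h0 fun ω ω' _ _ e => by
        rw [hY] at e
        simp only [Prod.mk.injEq] at e ⊢
        exact ⟨e.1, e.2.2.1, e.2.2.2.1, e.2.2.2.2.2.2⟩
    linarith [d1 i hi, d2 i hi, d3 i hi]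
  · -- the exact position of one place
    have r1 := CH_le_add h0 (X i) (D₂ i) (fun ω => (V₂ i ω, (pre X i ω, (X0 ω, Y ω))))
    have r2 : CH q (D₂ i) (fun ω => (V₂ i ω, (pre X i ω, (X0 ω, Y ω)))) ≤
        CH q (D₂ i) (fun ω => (V₂ i ω, (pre X i ω, (X0 ω, (z ω, W ω))))) :=
      CH_mono_cond h0 fun ω ω' _ _ e => by
        rw [hY] at e
        simp only [Prod.mk.injEq] at e ⊢
        exact ⟨e.1, e.2.1, e.2.2.1, e.2.2.2.2.2⟩
    have r3 : CH q (X i) (fun ω => (D₂ i ω, (V₂ i ω, (pre X i ω, (X0 ω, Y ω))))) ≤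
        CH q (X i) (fun ω => (D₂ i ω, X0 ω)) := CH_mono_cond h0 fun ω ω' _ _ e => by
      simp only [Prod.mk.injEq] at e ⊢
      exact ⟨e.1, e.2.2.2.1⟩
    linarith [d4 i hi, d5 i hi]
  · -- fullness
    have r1 : CH q (X i) (fun ω => (R ω, (pre X i ω, C₀ ω))) ≤
        CH q (X i) (fun ω => (pre V₂ (n + 1) ω, (pre X i ω, (X0 ω, Y ω)))) :=
      CH_mono_cond h0 fun ω ω' hω hω' e => by
        rw [hR, hA₂, hC₀] at e
        rw [hY]
        simp only [Prod.mk.injEq] at e ⊢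
        exact ⟨e.1.1, e.2.1, e.2.2.1, e.1.2.1, e.1.2.2, hzx ω ω' hω hω' e.2.2.2.1, e.2.2.2.2⟩
    have r2 := CH_le_add h0 (X i) R (fun ω => (pre X i ω, C₀ ω))
    have r3 : CH q R (fun ω => (pre X i ω, C₀ ω)) ≤ CH q R C₀ :=
      CH_mono_cond h0 fun ω ω' _ _ e => (Prod.ext_iff.mp e).2
    have r4 := hf i hi
    rw [show (fun ω => (pre X i ω, (X0 ω, (zx ω, W ω)))) = fun ω => (pre X i ω, C₀ ω) from by
      rw [hC₀]] at r4
    linarith

end ent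

end Pool.V0T
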